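import Pool.Agent.H14.AVS.S4
import Pool.Agent.H87.AVR.ST3

/-!
# AVS, module LMU: the upper bound for the average
-/

set_option autoImplicit false

namespace Pool.AVS

open Polynomial Matrix Pool.AVR

namespace LMU

section Fibres

variable {F : Type} [Field F]

/-- The bounded matrices over a cubic. -/
def Fi (n m : ℕ) (f : F[X] × F[X] × F[X]) : Set (Matrix (Fin 3) (Fin 3) F[X]) :=
  {B | Bd n m B ∧ (AA F[X] * B).charpoly = cubP f}

/-- The bounded matrices over a set of cubics. -/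
def UU (n m : ℕ) (G : Set (F[X] × F[X] × F[X])) : Set (Matrix (Fin 3) (Fin 3) F[X]) :=
  {B | Bd n m B ∧ ∃ f ∈ G, (AA F[X] * B).charpoly = cubP f}

theorem cubP_inj (f f' : F[X] × F[X] × F[X]) (h : cubP f = cubP f') : f = f' := by
  obtain ⟨a, b, c⟩ := f
  obtain ⟨a', b', c'⟩ := f'
  have h2 := congrArg (fun p => p.coeff 2) h
  have h1 := congrArg (fun p => p.coeff 1) h
  have h0 := congrArg (fun p => p.coeff 0) h
  simp only [cubP, cub, coeff_add, coeff_X_pow, coeff_C_mul, coeff_X, coeff_C] at h0 h1 h2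
  norm_num at h0 h1 h2
  rw [h0, h1, h2]

theorem fsum_mono {α : Type} {s t : Set α} (ht : t.Finite) (hst : s ⊆ t) (w : α → ℝ)
    (hw : ∀ x ∈ t, 0 ≤ w x) : ∑ᶠ x ∈ s, w x ≤ ∑ᶠ x ∈ t, w x := by
  rw [finsum_mem_eq_finite_toFinset_sum _ (ht.subset hst),
    finsum_mem_eq_finite_toFinset_sum _ ht]
  refine Finset.sum_le_sum_of_subset_of_nonneg ?_ ?_
  · intro x hx
    rw [Set.Finite.mem_toFinset] at hx ⊢
    exact hst hx
  · intro x hx _
    exact hw x ((Set.Finite.mem_toFinset _).1 hx)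

theorem fsum_le {α : Type} {s : Set α} (hs : s.Finite) (w w' : α → ℝ)
    (hw : ∀ x ∈ s, w x ≤ w' x) : ∑ᶠ x ∈ s, w x ≤ ∑ᶠ x ∈ s, w' x := by
  rw [finsum_mem_eq_finite_toFinset_sum _ hs, finsum_mem_eq_finite_toFinset_sum _ hs]
  refine Finset.sum_le_sum (fun x hx => hw x ((Set.Finite.mem_toFinset _).1 hx))

theorem fsum_const {α : Type} {s : Set α} (hs : s.Finite) (c : ℝ) :
    ∑ᶠ _x ∈ s, c = s.ncard * c := by
  rw [finsum_mem_eq_finite_toFinset_sum _ hs, Finset.sum_const, nsmul_eq_mul,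
    Set.ncard_eq_toFinset_card _ hs]

theorem fsum_mul {α : Type} {s : Set α} (hs : s.Finite) (c : ℝ) (w : α → ℝ) :
    ∑ᶠ x ∈ s, c * w x = c * ∑ᶠ x ∈ s, w x := by
  rw [finsum_mem_eq_finite_toFinset_sum _ hs, finsum_mem_eq_finite_toFinset_sum _ hs,
    Finset.mul_sum]

theorem sum_Fi (n m : ℕ) (hB : {B : Matrix (Fin 3) (Fin 3) F[X] | Bd n m B}.Finite)
    (G : Set (F[X] × F[X] × F[X])) (hG : G.Finite) (w : Matrix (Fin 3) (Fin 3) F[X] → ℝ) :
    ∑ᶠ f ∈ G, ∑ᶠ B ∈ Fi n m f, w B = ∑ᶠ B ∈ UU n m G, w B := by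
  have hU : UU n m G = ⋃ f ∈ G, Fi n m f := by
    ext B
    simp only [UU, Fi, Set.mem_setOf_eq, Set.mem_iUnion]
    constructor
    · rintro ⟨h1, f, hf, h2⟩
      exact ⟨f, hf, h1, h2⟩
    · rintro ⟨f, hf, h1, h2⟩
      exact ⟨h1, f, hf, h2⟩
  rw [hU, finsum_mem_biUnion _ hG]
  · intro f _
    exact hB.subset (fun B h => h.1)
  · intro f _ f' _ hne
    rw [Function.onFun, Set.disjoint_left]
    rintro B h1 h2
    exact hne (cubP_inj f f' (h1.2.symm.trans h2.2))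

theorem swap {α : Type} (n : ℕ) (G : Set α) (hG : G.Finite) (x : α → ℕ → ℝ) (g : ℕ → ℝ) :
    ∑ᶠ f ∈ G, ∑ m ∈ Finset.range (n + 1), x f m / g m =
      ∑ m ∈ Finset.range (n + 1), (∑ᶠ f ∈ G, x f m) / g m := by
  rw [finsum_mem_eq_finite_toFinset_sum _ hG, Finset.sum_comm]
  refine Finset.sum_congr rfl (fun m _ => ?_)
  rw [finsum_mem_eq_finite_toFinset_sum _ hG, Finset.sum_div]

theorem dB_map {R R' : Type} [CommRing R] [CommRing R'] (φ : R →+* R')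
    (B : Matrix (Fin 3) (Fin 3) R) : dB (B.map φ) = φ (dB B) := by
  have h : (B.map φ).det = φ B.det := by
    rw [RingHom.map_det]
    rfl
  simp only [dB, disc, ia, ib, ic, h, Matrix.map_apply, map_add, map_sub, map_mul, map_pow,
    map_neg, map_ofNat]

end Fibres

section Sym

theorem sym_sum (R : Type) [CommRing R] [Finite R] (w : Matrix (Fin 3) (Fin 3) R → ℝ) (c : ℝ)
    (h : ∀ x y z : R, ∑ᶠ B ∈ Fb x y z, w B = c) :
    ∑ᶠ B ∈ {B : Matrix (Fin 3) (Fin 3) R | Bᵀ = B}, w B = (Nat.card R : ℝ) ^ 3 * c := by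
  have hU : {B : Matrix (Fin 3) (Fin 3) R | Bᵀ = B} =
      ⋃ t ∈ (Set.univ : Set (R × R × R)), Fb t.1 t.2.1 t.2.2 := by
    ext B
    simp only [Fb, Set.mem_setOf_eq, Set.mem_iUnion, Set.mem_univ, exists_const]
    constructor
    · intro h
      exact ⟨(ia B, ib B, ic B), h, rfl, rfl, rfl⟩
    · rintro ⟨t, h, _⟩
      exact h
  rw [hU, finsum_mem_biUnion _ Set.finite_univ]
  · have h1 : ∀ t : R × R × R, ∑ᶠ B ∈ Fb t.1 t.2.1 t.2.2, w B = c := fun t => h _ _ _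
    simp only [h1]
    rw [fsum_const Set.finite_univ, Set.ncard_univ, Nat.card_prod, Nat.card_prod]
    push_cast
    ring
  · intro t _
    exact Set.toFinite _
  · intro t _ t' _ hne
    rw [Function.onFun, Set.disjoint_left]
    rintro B ⟨_, h1, h2, h3⟩ ⟨_, h1', h2', h3'⟩
    apply hne
    have e1 : t.1 = t'.1 := h1.symm.trans h1'
    have e2 : t.2.1 = t'.2.1 := h2.symm.trans h2'
    have e3 : t.2.2 = t'.2.2 := h3.symm.trans h3'
    exact Prod.ext e1 (Prod.ext e2 e3)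

end Sym

section Pow

variable {F : Type} [Field F]

theorem eq_of_dvd (P Q : F[X]) (hP : P.Monic) (hPi : Irreducible P) (hQ : Q.Monic)
    (hQi : Irreducible Q) (h : P ∣ Q) : P = Q :=
  eq_of_monic_of_associated hP hQ (hPi.associated_of_dvd hQi h)

theorem pow_inj (N : ℕ) (hN : 1 ≤ N) (P Q : F[X]) (hP : P.Monic) (hPi : Irreducible P)
    (hQ : Q.Monic) (hQi : Irreducible Q) (h : P ^ N = Q ^ N) : P = Q := by
  apply eq_of_dvd P Q hP hPi hQ hQi
  have h1 : P ∣ Q ^ N := by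
    rw [← h]
    exact dvd_pow_self P (by omega)
  exact hPi.prime.dvd_of_dvd_pow h1

theorem cop (P Q : F[X]) (hP : P.Monic) (hPi : Irreducible P)
    (hQ : Q.Monic) (hQi : Irreducible Q) (h : P ≠ Q) : IsCoprime P Q := by
  rw [hPi.coprime_iff_not_dvd]
  intro h1
  exact h (eq_of_dvd P Q hP hPi hQ hQi h1)

end Pow

section Main1

variable {F : Type} [Field F] [Finite F]

open Classical in
/-- The local functions. -/
noncomputable def PhiW (S : Finset F[X]) (N : ℕ) (M : F[X])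
    (B : Matrix (Fin 3) (Fin 3) (AdjoinRoot M)) : ℝ :=
  if h : ∃ P ∈ S, P ^ N = M then wt (Classical.choose h) N (B.map lft) else 0

theorem PhiW_eq (S : Finset F[X]) (N : ℕ) (hN : 1 ≤ N) (hS : ∀ P ∈ S, P.Monic ∧ Irreducible P)
    (P : F[X]) (hP : P ∈ S) (B : Matrix (Fin 3) (Fin 3) (AdjoinRoot (P ^ N))) :
    PhiW S N (P ^ N) B = wt P N (B.map lft) := by
  have h : ∃ Q ∈ S, Q ^ N = P ^ N := ⟨P, hP, rfl⟩
  have h1 := Classical.choose_spec h
  have h2 : Classical.choose h = P :=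
    pow_inj N hN _ _ (hS _ h1.1).1 (hS _ h1.1).2 (hS P hP).1 (hS P hP).2 h1.2
  unfold PhiW
  rw [dif_pos h, h2]

theorem finite_adj (hLVF : LVFStmt) (h2 : (2 : F) ≠ 0) (P : F[X]) (N : ℕ) (hP : P.Monic)
    (hPi : Irreducible P) (hN : 1 ≤ N) : Finite (AdjoinRoot (P ^ N)) ∧
      (Nat.card (AdjoinRoot (P ^ N)) : ℝ) = (Nat.card F : ℝ) ^ (N * P.natDegree) := by
  have h := (hLVF F h2 P N hP hPi hN).1
  refine ⟨?_, by rw [h]; push_cast; rfl⟩
  apply Nat.finite_of_card_ne_zero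
  rw [h]
  exact pow_ne_zero _ Nat.card_pos.ne'

theorem loc_sum (hLVF : LVFStmt) (h2 : (2 : F) ≠ 0) (P : F[X]) (N : ℕ) (hP : P.Monic)
    (hPi : Irreducible P) (hN : 1 ≤ N) :
    (∑ᶠ B ∈ {B : Matrix (Fin 3) (Fin 3) (AdjoinRoot (P ^ N)) | Bᵀ = B}, wt P N (B.map lft)) /
      (Nat.card F : ℝ) ^ (6 * (N * P.natDegree)) =
        1 - 1 / (Nat.card F : ℝ) ^ (2 * P.natDegree) := by
  obtain ⟨hf, hc⟩ := finite_adj hLVF h2 P N hP hPi hN
  have hq : (0 : ℝ) < Nat.card F := by exact_mod_cast Nat.card_pos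
  rw [sym_sum (AdjoinRoot (P ^ N)) (fun B => wt P N (B.map lft)) _
    (hLVF F h2 P N hP hPi hN).2.2.2.2, hc, div_eq_iff (by positivity), ← pow_mul,
    show 6 * (N * P.natDegree) = N * P.natDegree * 3 + 3 * (N * P.natDegree) by ring, pow_add]
  ring

theorem main_sum (hLVF : LVFStmt) (hEQP : EQPStmt) (h2 : (2 : F) ≠ 0) (S : Finset F[X]) (N : ℕ)
    (hN : 1 ≤ N) (hS : ∀ P ∈ S, P.Monic ∧ Irreducible P) (n m : ℕ)
    (hnm : m + ((∑ P ∈ S, N * P.natDegree) + N) ≤ n) :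
    ∑ᶠ B ∈ {B : Matrix (Fin 3) (Fin 3) F[X] | Bd n m B}, WS n m S N B =
      (Nat.card F : ℝ) ^ (12 * n + 6) * ((1 - 1 / (Nat.card F : ℝ) ^ 2) *
        ∏ P ∈ S, (1 - 1 / (Nat.card F : ℝ) ^ (2 * P.natDegree))) := by
  classical
  have hinj : Set.InjOn (fun P : F[X] => P ^ N) (S : Set F[X]) := by
    intro P hP Q hQ h
    exact pow_inj N hN P Q (hS P hP).1 (hS P hP).2 (hS Q hQ).1 (hS Q hQ).2 h
  have hdeg : ∑ M ∈ S.image (fun P => P ^ N), M.natDegree = ∑ P ∈ S, N * P.natDegree := by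
    rw [Finset.sum_image hinj]
    exact Finset.sum_congr rfl (fun P _ => natDegree_pow P N)
  have h := (hEQP F n m N (S.image (fun P => P ^ N)) (by omega) hN
    (by
      intro M hM
      obtain ⟨P, hP, rfl⟩ := Finset.mem_image.1 hM
      exact (hS P hP).1.pow N)
    (by
      intro M hM M' hM' hne
      obtain ⟨P, hP, rfl⟩ := Finset.mem_image.1 hM
      obtain ⟨Q, hQ, rfl⟩ := Finset.mem_image.1 hM'
      apply IsCoprime.pow
      apply cop P Q (hS P hP).1 (hS P hP).2 (hS Q hQ).1 (hS Q hQ).2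
      rintro rfl
      exact hne rfl)
    (by
      rw [hdeg]
      omega)
    (PhiW S N) (fun B => wt X N (B.map lft))).2
  rw [Finset.prod_image hinj] at h
  have hX := loc_sum hLVF h2 X N monic_X irreducible_X hN
  rw [natDegree_X, mul_one, mul_one] at hX
  have e1 : ∀ B : Matrix (Fin 3) (Fin 3) F[X],
      (∏ M ∈ S.image (fun P => P ^ N), PhiW S N M (B.map (AdjoinRoot.mk M))) *
        wt X N (((Binf n m B).map (AdjoinRoot.mk (X ^ N))).map lft) = WS n m S N B := by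
    intro B
    unfold WS
    rw [Finset.prod_image hinj, (hLVF F h2 X N monic_X irreducible_X hN).2.2.1 (Binf n m B)]
    congr 1
    refine Finset.prod_congr rfl (fun P hP => ?_)
    rw [PhiW_eq S N hN hS P hP, (hLVF F h2 P N (hS P hP).1 (hS P hP).2 hN).2.2.1 B]
  simp only [e1] at h
  rw [h, hX, mul_assoc]
  congr 1
  rw [mul_comm]
  congr 1
  refine Finset.prod_congr rfl (fun P hP => ?_)
  rw [natDegree_pow]
  have e2 : ∀ B : Matrix (Fin 3) (Fin 3) (AdjoinRoot (P ^ N)),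
      PhiW S N (P ^ N) B = wt P N (B.map lft) := PhiW_eq S N hN hS P hP
  simp only [e2]
  exact loc_sum hLVF h2 P N (hS P hP).1 (hS P hP).2 hN

end Main1

section Bad

variable {F : Type} [Field F] [Finite F]

theorem fsum_ite {α : Type} {s : Set α} (hs : s.Finite) (p : α → Prop) [DecidablePred p] :
    ∑ᶠ x ∈ s, (if p x then (1 : ℝ) else 0) = ({x | x ∈ s ∧ p x}.ncard : ℝ) := by
  have h : {x | x ∈ s ∧ p x} = ((hs.toFinset.filter p : Finset α) : Set α) := by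
    ext x
    simp
  rw [finsum_mem_eq_finite_toFinset_sum _ hs, Finset.sum_boole, h, Set.ncard_coe_finset]

theorem sym_card (hEQP : EQPStmt) (hCNB : CNBStmt) (N : ℕ) (hN : 1 ≤ N) :
    (∑ᶠ _B ∈ {B : Matrix (Fin 3) (Fin 3) (AdjoinRoot ((X : F[X]) ^ N)) | Bᵀ = B}, (1 : ℝ)) /
      (Nat.card F : ℝ) ^ (6 * N) ≤ 1 := by
  obtain ⟨hf, h⟩ := hEQP F N 0 N ∅ (by omega) hN (by simp) (by simp)
    (by rw [Finset.sum_empty]; omega) (fun _ _ => 1) (fun _ => 1)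
  obtain ⟨_, hc⟩ := hCNB F N 0 (by omega)
  have hq : (0 : ℝ) < Nat.card F := by exact_mod_cast Nat.card_pos
  simp only [Finset.prod_empty, mul_one] at h
  rw [fsum_const hf, mul_one] at h
  have hc' : ({B : Matrix (Fin 3) (Fin 3) F[X] | Bd N 0 B}.ncard : ℝ) ≤
      (Nat.card F : ℝ) ^ (12 * N + 6) := by exact_mod_cast hc
  rw [h] at hc'
  have h3 : (0 : ℝ) < (Nat.card F : ℝ) ^ (12 * N + 6) := by positivity
  exact le_of_mul_le_mul_left (by rwa [mul_one]) h3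

theorem bad_P (hLVF : LVFStmt) (hEQP : EQPStmt) (hCNB : CNBStmt) (h2 : (2 : F) ≠ 0) (P : F[X])
    (hP : P.Monic) (hPi : Irreducible P) (N : ℕ) (hN : 1 ≤ N) (δ : ℝ) (hδ : 0 ≤ δ)
    (hB : ({B : Matrix (Fin 3) (Fin 3) (AdjoinRoot (P ^ N)) | Bᵀ = B ∧ dB B = 0}.ncard : ℝ) ≤
      δ * (Nat.card F : ℝ) ^ (6 * (N * P.natDegree))) (n m : ℕ)
    (hnm : m + (N * P.natDegree + N) ≤ n) :
    ({B : Matrix (Fin 3) (Fin 3) F[X] | Bd n m B ∧ P ^ N ∣ dB B}.ncard : ℝ) ≤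
      δ * (Nat.card F : ℝ) ^ (12 * n + 6) := by
  classical
  obtain ⟨hfin, _⟩ := finite_adj hLVF h2 P N hP hPi hN
  obtain ⟨hf, h⟩ := hEQP F n m N {P ^ N} (by omega) hN
    (by
      intro M hM
      rw [Finset.mem_singleton] at hM
      rw [hM]
      exact hP.pow N)
    (by
      intro M hM M' hM' hne
      rw [Finset.mem_singleton] at hM hM'
      exact absurd (hM.trans hM'.symm) hne)
    (by
      rw [Finset.sum_singleton, natDegree_pow]
      omega)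
    (fun M B => if dB B = 0 then 1 else 0) (fun _ => 1)
  have hq : (0 : ℝ) < Nat.card F := by exact_mod_cast Nat.card_pos
  simp only [Finset.prod_singleton, mul_one, dB_map] at h
  rw [fsum_ite hf, fsum_ite (Set.toFinite _), natDegree_pow] at h
  have e1 : {B : Matrix (Fin 3) (Fin 3) F[X] | Bd n m B ∧ P ^ N ∣ dB B} =
      {B : Matrix (Fin 3) (Fin 3) F[X] | B ∈ {B : Matrix (Fin 3) (Fin 3) F[X] | Bd n m B} ∧
        AdjoinRoot.mk (P ^ N) (dB B) = 0} := by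
    ext B
    simp only [Set.mem_setOf_eq, AdjoinRoot.mk_eq_zero]
  rw [e1, h]
  have h3 := sym_card (F := F) hEQP hCNB N hN
  have h4 : ({B : Matrix (Fin 3) (Fin 3) (AdjoinRoot (P ^ N)) |
      B ∈ {B : Matrix (Fin 3) (Fin 3) (AdjoinRoot (P ^ N)) | Bᵀ = B} ∧ dB B = 0}.ncard : ℝ) /
      (Nat.card F : ℝ) ^ (6 * (N * P.natDegree)) ≤ δ := by
    rw [div_le_iff₀ (by positivity)]
    exact hB
  have h5 : (0 : ℝ) ≤ (∑ᶠ _B ∈ {B : Matrix (Fin 3) (Fin 3) (AdjoinRoot ((X : F[X]) ^ N)) |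
      Bᵀ = B}, (1 : ℝ)) / (Nat.card F : ℝ) ^ (6 * N) := by
    apply div_nonneg _ (by positivity)
    apply finsum_nonneg
    intro B
    apply finsum_nonneg
    intro _
    norm_num
  calc _ ≤ (Nat.card F : ℝ) ^ (12 * n + 6) * δ * 1 := by
        apply mul_le_mul _ h3 h5 (by positivity)
        exact mul_le_mul_of_nonneg_left h4 (by positivity)
    _ = _ := by ring

theorem bad_X (hLVF : LVFStmt) (hEQP : EQPStmt) (h2 : (2 : F) ≠ 0)
    (N : ℕ) (hN : 1 ≤ N) (δ : ℝ)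
    (hB : ({B : Matrix (Fin 3) (Fin 3) (AdjoinRoot ((X : F[X]) ^ N)) |
      Bᵀ = B ∧ dB B = 0}.ncard : ℝ) ≤ δ * (Nat.card F : ℝ) ^ (6 * (N * (X : F[X]).natDegree)))
    (n m : ℕ) (hnm : m + N ≤ n) :
    ({B : Matrix (Fin 3) (Fin 3) F[X] | Bd n m B ∧ X ^ N ∣ dB (Binf n m B)}.ncard : ℝ) ≤
      δ * (Nat.card F : ℝ) ^ (12 * n + 6) := by
  classical
  obtain ⟨hfin, _⟩ := finite_adj hLVF h2 X N monic_X irreducible_X hN
  obtain ⟨hf, h⟩ := hEQP F n m N ∅ (by omega) hN (by simp) (by simp)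
    (by rw [Finset.sum_empty]; omega) (fun _ _ => 1) (fun B => if dB B = 0 then 1 else 0)
  have hq : (0 : ℝ) < Nat.card F := by exact_mod_cast Nat.card_pos
  simp only [Finset.prod_empty, mul_one, one_mul, dB_map] at h
  rw [fsum_ite hf, fsum_ite (Set.toFinite _)] at h
  have e1 : {B : Matrix (Fin 3) (Fin 3) F[X] | Bd n m B ∧ X ^ N ∣ dB (Binf n m B)} =
      {B : Matrix (Fin 3) (Fin 3) F[X] | B ∈ {B : Matrix (Fin 3) (Fin 3) F[X] | Bd n m B} ∧
        AdjoinRoot.mk (X ^ N) (dB (Binf n m B)) = 0} := by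
    ext B
    simp only [Set.mem_setOf_eq, AdjoinRoot.mk_eq_zero]
  rw [natDegree_X, mul_one] at hB
  rw [e1, h, mul_comm]
  apply mul_le_mul_of_nonneg_right _ (by positivity)
  rw [div_le_iff₀ (by positivity)]
  exact hB

end Bad

section Assembly

variable {F : Type} [Field F] [Finite F]

/-- The bound for the weights. -/
noncomputable def CS (S : Finset F[X]) : ℝ :=
  (∏ P ∈ S, 2 * ((Nat.card F : ℝ) ^ P.natDegree + 1)) * (2 * ((Nat.card F : ℝ) + 1))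

theorem CS_pos (S : Finset F[X]) : 0 < CS S := by
  have hq : (0 : ℝ) < Nat.card F := by exact_mod_cast Nat.card_pos
  unfold CS
  have h : 0 < ∏ P ∈ S, 2 * ((Nat.card F : ℝ) ^ P.natDegree + 1) :=
    Finset.prod_pos (fun P _ => by positivity)
  positivity

theorem WS_bd (hLVF : LVFStmt) (h2 : (2 : F) ≠ 0) (S : Finset F[X]) (N : ℕ)
    (hN : 1 ≤ N) (hS : ∀ P ∈ S, P.Monic ∧ Irreducible P) (n m : ℕ)
    (B : Matrix (Fin 3) (Fin 3) F[X]) : 0 ≤ WS n m S N B ∧ WS n m S N B ≤ CS S := by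
  have h1 := (hLVF F h2 X N monic_X irreducible_X hN).2.2.2.1 (Binf n m B)
  rw [natDegree_X, pow_one] at h1
  have h3 : ∀ P ∈ S, 0 ≤ wt P N B ∧
      wt P N B ≤ 2 * ((Nat.card F : ℝ) ^ P.natDegree + 1) := fun P hP =>
    (hLVF F h2 P N (hS P hP).1 (hS P hP).2 hN).2.2.2.1 B
  have h4 : 0 ≤ ∏ P ∈ S, wt P N B := Finset.prod_nonneg (fun P hP => (h3 P hP).1)
  refine ⟨mul_nonneg h4 h1.1, ?_⟩
  unfold WS CS
  apply mul_le_mul (Finset.prod_le_prod (fun P hP => (h3 P hP).1) (fun P hP => (h3 P hP).2))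
    h1.2 h1.1
  exact h4.trans (Finset.prod_le_prod (fun P hP => (h3 P hP).1) (fun P hP => (h3 P hP).2))

theorem count_sum (hCNB : CNBStmt) (n : ℕ) (G : Set (F[X] × F[X] × F[X])) (hG : G.Finite)
    (x : F[X] × F[X] × F[X] → ℝ) (g : ℕ → ℝ) (k : ℝ)
    (hx : ∀ f ∈ G, x f ≤ k * ∑ m ∈ Finset.range (n + 1), ((Fi n m f).ncard : ℝ) / g m) :
    ∑ᶠ f ∈ G, x f ≤ k * ∑ m ∈ Finset.range (n + 1), ((UU n m G).ncard : ℝ) / g m := by
  refine (fsum_le hG _ _ hx).trans (le_of_eq ?_)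
  rw [fsum_mul hG k (fun f => ∑ m ∈ Finset.range (n + 1), ((Fi n m f).ncard : ℝ) / g m)]
  congr 1
  rw [swap n G hG (fun f m => ((Fi n m f).ncard : ℝ)) g]
  refine Finset.sum_congr rfl (fun m hm => ?_)
  congr 1
  have hmn : m ≤ n := by
    have := Finset.mem_range.mp hm
    omega
  have hB := (hCNB F n m hmn).1
  have h1 := sum_Fi n m hB G hG (fun _ => 1)
  rw [fsum_const (hB.subset (fun B h => h.1)), mul_one] at h1
  rw [← h1]
  refine finsum_mem_congr rfl (fun f _ => ?_)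
  rw [fsum_const (hB.subset (fun B h => h.1)), mul_one]

theorem good_sum (hCNB : CNBStmt) (hLVF : LVFStmt) (hEQP : EQPStmt) (h2 : (2 : F) ≠ 0)
    (S : Finset F[X]) (N : ℕ) (hN : 1 ≤ N) (hS : ∀ P ∈ S, P.Monic ∧ Irreducible P)
    (n D : ℕ) (hD : (∑ P ∈ S, N * P.natDegree) + N ≤ D)
    (G : Set (F[X] × F[X] × F[X])) (hG : G.Finite)
    (x : F[X] × F[X] × F[X] → ℝ) (g : ℕ → ℝ) (hq : 3 ≤ (Nat.card F : ℝ))
    (hg : ∀ m, (Nat.card F : ℝ) ^ m ≤ g m)
    (hg0 : (Nat.card F : ℝ) ^ 3 - Nat.card F ≤ g 0)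
    (hg1 : ∀ m, 1 ≤ m → ((Nat.card F : ℝ) - 1) * (Nat.card F : ℝ) ^ (m + 1) ≤ g m)
    (hx : ∀ f ∈ G, x f ≤ ∑ m ∈ Finset.range (n + 1),
      (∑ᶠ B ∈ Fi n m f, WS n m S N B) / g m) :
    ∑ᶠ f ∈ G, x f ≤ (Nat.card F : ℝ) ^ (12 * n + 6) * ((1 - 1 / (Nat.card F : ℝ) ^ 2) *
        ∏ P ∈ S, (1 - 1 / (Nat.card F : ℝ) ^ (2 * P.natDegree))) *
          (2 / (((Nat.card F : ℝ) - 1) ^ 2 * ((Nat.card F : ℝ) + 1))) +
      CS S * ((Nat.card F : ℝ) ^ (12 * n + 6) *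
        (D * ((Nat.card F : ℝ) ^ D / (Nat.card F : ℝ) ^ n))) := by
  set q : ℝ := (Nat.card F : ℝ) with hqdef
  have hq0 : 0 < q := by linarith
  have hC := CS_pos S
  have hgpos : ∀ m, 0 < g m := fun m => lt_of_lt_of_le (by positivity) (hg m)
  have hZ0 : 0 ≤ ∏ P ∈ S, (1 - 1 / q ^ (2 * P.natDegree)) := by
    apply Finset.prod_nonneg
    intro P _
    have h5 : 1 / q ^ (2 * P.natDegree) ≤ 1 := by
      rw [div_le_one (by positivity)]
      exact one_le_pow₀ (by linarith)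
    linarith
  have hκ0 : 0 ≤ (1 - 1 / q ^ 2) * ∏ P ∈ S, (1 - 1 / q ^ (2 * P.natDegree)) := by
    have h5 : 1 / q ^ 2 ≤ 1 := by
      rw [div_le_one (by positivity)]
      exact one_le_pow₀ (by linarith)
    exact mul_nonneg (by linarith) hZ0
  set κ : ℝ := (1 - 1 / q ^ 2) * ∏ P ∈ S, (1 - 1 / q ^ (2 * P.natDegree)) with hκ
  have hstep1 : ∑ᶠ f ∈ G, x f ≤ ∑ m ∈ Finset.range (n + 1),
      (∑ᶠ B ∈ {B : Matrix (Fin 3) (Fin 3) F[X] | Bd n m B}, WS n m S N B) / g m := by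
    refine (fsum_le hG _ _ hx).trans ?_
    rw [swap n G hG (fun f m => ∑ᶠ B ∈ Fi n m f, WS n m S N B) g]
    refine Finset.sum_le_sum (fun m hm => ?_)
    have hmn : m ≤ n := by
      have := Finset.mem_range.mp hm
      omega
    have hB := (hCNB F n m hmn).1
    apply div_le_div_of_nonneg_right _ (hgpos m).le
    rw [sum_Fi n m hB G hG]
    exact fsum_mono hB (fun B h => h.1) _ (fun B _ => (WS_bd hLVF h2 S N hN hS n m B).1)
  have hstep2 := ST3.sumM q (κ / CS S) hq (div_nonneg hκ0 hC.le) D n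
    (fun m => (∑ᶠ B ∈ {B : Matrix (Fin 3) (Fin 3) F[X] | Bd n m B}, WS n m S N B) / CS S) g
    (by
      intro m
      apply div_nonneg _ hC.le
      apply finsum_nonneg
      intro B
      apply finsum_nonneg
      intro _
      exact (WS_bd hLVF h2 S N hN hS n m B).1)
    (by
      intro m hm
      obtain ⟨hB, hc⟩ := hCNB F n m hm
      rw [div_le_iff₀ hC]
      refine (fsum_le hB _ (fun _ => CS S)
        (fun B _ => (WS_bd hLVF h2 S N hN hS n m B).2)).trans ?_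
      rw [fsum_const hB]
      apply mul_le_mul_of_nonneg_right _ hC.le
      rw [hqdef]
      exact_mod_cast hc)
    (by
      intro m hm
      show (∑ᶠ B ∈ {B : Matrix (Fin 3) (Fin 3) F[X] | Bd n m B}, WS n m S N B) / CS S ≤ _
      rw [main_sum hLVF hEQP h2 S N hN hS n m (by omega), mul_div_assoc])
    hg hg0 hg1
  have hstep3 : ∑ m ∈ Finset.range (n + 1),
      (∑ᶠ B ∈ {B : Matrix (Fin 3) (Fin 3) F[X] | Bd n m B}, WS n m S N B) / g m =
      CS S * ∑ m ∈ Finset.range (n + 1),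
      ((∑ᶠ B ∈ {B : Matrix (Fin 3) (Fin 3) F[X] | Bd n m B}, WS n m S N B) / CS S) / g m := by
    rw [Finset.mul_sum]
    refine Finset.sum_congr rfl (fun m _ => ?_)
    rw [div_right_comm, mul_div_cancel₀ _ hC.ne']
  rw [hstep3] at hstep1
  refine hstep1.trans ((mul_le_mul_of_nonneg_left hstep2 hC.le).trans (le_of_eq ?_))
  field_simp

/-- the final inequality -/
theorem final (q ε T Z Ec X1 X2 X3 : ℝ) (hq : 3 ≤ q) (hε : 0 < ε) (hε1 : ε ≤ 1) (hT : 0 < T)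
    (hZ : Z ≤ 1 - 1 / q + ε / 24)
    (hX1 : X1 ≤ q ^ 3 * T * ((1 - 1 / q ^ 2) * Z) * (2 / ((q - 1) ^ 2 * (q + 1))) + ε / 12 * T)
    (hX2 : X2 ≤ ε / 12 * T) (hX3 : X3 ≤ ε / 12 * T) (hE : T * (1 - ε / 24) ≤ Ec) :
    Ec + (X1 + X2 + X3) ≤ (3 + ε) * Ec := by
  have hq0 : 0 < q := by linarith
  have hq1 : 0 < q - 1 := by linarith
  have h1 : q ^ 3 * T * ((1 - 1 / q ^ 2) * Z) * (2 / ((q - 1) ^ 2 * (q + 1))) =
      2 * T * (Z / (1 - 1 / q)) := by
    have h2 : (1 - 1 / q) ≠ 0 := by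
      rw [sub_ne_zero]
      intro h
      rw [eq_div_iff hq0.ne'] at h
      linarith
    field_simp
    ring
  have h3 : Z / (1 - 1 / q) ≤ 1 + ε / 16 := by
    have h4 : 1 / q ≤ 1 / 3 := one_div_le_one_div_of_le (by norm_num) hq
    rw [div_le_iff₀ (by linarith)]
    nlinarith
  have h5 : 2 * T * (Z / (1 - 1 / q)) ≤ 2 * T * (1 + ε / 16) :=
    mul_le_mul_of_nonneg_left h3 (by positivity)
  have h6 : (2 + ε) * (T * (1 - ε / 24)) ≤ (2 + ε) * Ec :=
    mul_le_mul_of_nonneg_left hE (by positivity)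
  have h9 : 2 * T * (1 + ε / 16) + 3 * (ε / 12 * T) ≤ (2 + ε) * (T * (1 - ε / 24)) := by
    have e1 : (2 + ε) * (T * (1 - ε / 24)) = T * ((2 + ε) * (1 - ε / 24)) := by ring
    have e2 : 2 * T * (1 + ε / 16) + 3 * (ε / 12 * T) = T * (2 + 3 / 8 * ε) := by ring
    rw [e1, e2]
    apply mul_le_mul_of_nonneg_left _ hT.le
    nlinarith
  rw [h1] at hX1
  linarith

theorem ncard_bU {α β : Type} [DecidableEq β] (S : Finset β) (t : β → Set α) (c : ℝ)
    (h : ∀ b ∈ S, ((t b).ncard : ℝ) ≤ c) : ((⋃ b ∈ S, t b).ncard : ℝ) ≤ S.card * c := by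
  induction S using Finset.induction_on with
  | empty => simp
  | insert b S hb ih =>
    rw [Finset.set_biUnion_insert, Finset.card_insert_of_notMem hb]
    have h1 := ih (fun b' hb' => h b' (Finset.mem_insert_of_mem hb'))
    have h2 := h b (Finset.mem_insert_self b S)
    have h3 : ((t b ∪ ⋃ x ∈ S, t x).ncard : ℝ) ≤ (t b).ncard + (⋃ x ∈ S, t x).ncard := by
      exact_mod_cast Set.ncard_union_le _ _
    push_cast
    linarith

/-- The cubics with a discriminant divisible by a high power. -/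
def Bad (n N : ℕ) (S : Finset F[X]) : Set (F[X] × F[X] × F[X]) :=
  {f ∈ Irr F n | ¬ ((∀ P ∈ S, ¬ P ^ N ∣ disc f.1 f.2.1 f.2.2) ∧
    ¬ X ^ N ∣ disc (finf n f).1 (finf n f).2.1 (finf n f).2.2)}

/-- The other irreducible cubics. -/
def Good (n N : ℕ) (S : Finset F[X]) : Set (F[X] × F[X] × F[X]) :=
  {f ∈ Irr F n | ((∀ P ∈ S, ¬ P ^ N ∣ disc f.1 f.2.1 f.2.2) ∧
    ¬ X ^ N ∣ disc (finf n f).1 (finf n f).2.1 (finf n f).2.2)}

theorem bad_count (hLVF : LVFStmt) (hEQP : EQPStmt) (hCNB : CNBStmt) (hBIN : BINStmt)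
    (hCHI : CHIStmt) (h2 : (2 : F) ≠ 0) (S : Finset F[X]) (N : ℕ)
    (hN : 1 ≤ N) (hS : ∀ P ∈ S, P.Monic ∧ Irreducible P) (δ : ℝ) (hδ : 0 ≤ δ)
    (hB : ∀ P ∈ S, ({B : Matrix (Fin 3) (Fin 3) (AdjoinRoot (P ^ N)) |
      Bᵀ = B ∧ dB B = 0}.ncard : ℝ) ≤ δ * (Nat.card F : ℝ) ^ (6 * (N * P.natDegree)))
    (hBX : ({B : Matrix (Fin 3) (Fin 3) (AdjoinRoot ((X : F[X]) ^ N)) |
      Bᵀ = B ∧ dB B = 0}.ncard : ℝ) ≤ δ * (Nat.card F : ℝ) ^ (6 * (N * (X : F[X]).natDegree)))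
    (n m D : ℕ) (hD : (∑ P ∈ S, N * P.natDegree) + N ≤ D) (hnm : m + D ≤ n) :
    ((UU n m (Bad n N S)).ncard : ℝ) ≤ (S.card + 1) * δ * (Nat.card F : ℝ) ^ (12 * n + 6) := by
  classical
  have hmn : m ≤ n := by omega
  have hfin := (hCNB F n m hmn).1
  have hsub : UU n m (Bad n N S) ⊆
      (⋃ P ∈ S, {B : Matrix (Fin 3) (Fin 3) F[X] | Bd n m B ∧ P ^ N ∣ dB B}) ∪
        {B : Matrix (Fin 3) (Fin 3) F[X] | Bd n m B ∧ X ^ N ∣ dB (Binf n m B)} := by
    rintro B ⟨hBd, f, hf, hc⟩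
    obtain ⟨e1, e2, e3⟩ := ((hCHI F[X] B hBd.1).2 f.1 f.2.1 f.2.2).1 hc
    obtain ⟨_, _, r1, r2, r3, _⟩ := hBIN F n m hmn B hBd
    have hd : dB B = disc f.1 f.2.1 f.2.2 := by
      unfold dB
      rw [e1, e2, e3]
    have hd' : dB (Binf n m B) = disc (finf n f).1 (finf n f).2.1 (finf n f).2.2 := by
      unfold dB finf
      rw [r1, r2, r3, e1, e2, e3]
    by_cases h : X ^ N ∣ dB (Binf n m B)
    · exact Or.inr ⟨hBd, h⟩
    · left
      have h3 := hf.2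
      rw [← hd, ← hd'] at h3
      have h4 : ∃ P ∈ S, P ^ N ∣ dB B := by
        by_contra hcon
        apply h3
        refine ⟨fun P hP hdiv => hcon ⟨P, hP, hdiv⟩, h⟩
      obtain ⟨P, hP, hdiv⟩ := h4
      simp only [Set.mem_iUnion]
      exact ⟨P, hP, hBd, hdiv⟩
  have h5 : ((UU n m (Bad n N S)).ncard : ℝ) ≤
      ((⋃ P ∈ S, {B : Matrix (Fin 3) (Fin 3) F[X] | Bd n m B ∧ P ^ N ∣ dB B}).ncard : ℝ) +
        ({B : Matrix (Fin 3) (Fin 3) F[X] | Bd n m B ∧ X ^ N ∣ dB (Binf n m B)}.ncard : ℝ) := by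
    have h6 := (Set.ncard_le_ncard hsub (hfin.subset (by
      intro B hB'
      rcases hB' with hB' | hB'
      · simp only [Set.mem_iUnion] at hB'
        obtain ⟨P, _, hB'⟩ := hB'
        exact hB'.1
      · exact hB'.1))).trans (Set.ncard_union_le _ _)
    exact_mod_cast h6
  have h7 := ncard_bU S (fun P => {B : Matrix (Fin 3) (Fin 3) F[X] | Bd n m B ∧ P ^ N ∣ dB B})
    (δ * (Nat.card F : ℝ) ^ (12 * n + 6)) (fun P hP => by
      have h8 : N * P.natDegree ≤ ∑ P ∈ S, N * P.natDegree :=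
        Finset.single_le_sum (f := fun P : F[X] => N * P.natDegree) (fun _ _ => Nat.zero_le _) hP
      exact bad_P hLVF hEQP hCNB h2 P (hS P hP).1 (hS P hP).2 N hN δ hδ (hB P hP) n m (by omega))
  have h9 := bad_X hLVF hEQP h2 N hN δ hBX n m (by omega)
  calc _ ≤ _ := h5
    _ ≤ S.card * (δ * (Nat.card F : ℝ) ^ (12 * n + 6)) +
        δ * (Nat.card F : ℝ) ^ (12 * n + 6) := add_le_add h7 h9
    _ = _ := by ring

theorem grp_of (hGRE : GREStmt) : GRPStmt := by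
  intro F _ _ h2
  obtain ⟨h1, h3, h4⟩ := hGRE F h2
  exact ⟨h1, h3.ge, fun m hm => (h4 m hm).ge⟩

end Assembly

end LMU

open LMU in
open Classical in
theorem lmu_thm (hWUN : WUNStmt) (hWUW : WUWStmt) (hGRE : GREStmt) (hLVF : LVFStmt)
    (hEQP : EQPStmt) (hBDN : BDNStmt) (hBIN : BINStmt) (hCHI : CHIStmt) (hRED : REDStmt)
    (hSTE : STEStmt) (hSTAB : STABStmt) (hCNF : CNFStmt) (hCNB : CNBStmt) (hZET : ZETStmt)
    (hDSC : DSCStmt) : LMUStmt := by
  intro F _ _ h2 ε0 hε0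
  have hGRP := grp_of hGRE
  set ε : ℝ := min ε0 1 with hεdef
  have hε : 0 < ε := lt_min hε0 one_pos
  have hε1 : ε ≤ 1 := min_le_right _ _
  have hεε : ε ≤ ε0 := min_le_left _ _
  have hq3 := ST2.three_le h2
  set q : ℝ := (Nat.card F : ℝ) with hqdef
  have hq : 3 ≤ q := by
    rw [hqdef]
    exact_mod_cast hq3
  have hq0 : 0 < q := by linarith
  -- the finite set of primes
  obtain ⟨D1, hD1⟩ := hZET F (ε / 24) (by positivity)
  obtain ⟨S, hS1, hS2⟩ := ST3.primes_fin F D1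
  have hZ := hD1 S hS1 hS2
  -- the level
  set δ2 : ℝ := ε / (48 * q ^ 3) with hδ2
  have hδ20 : 0 < δ2 := by positivity
  set δ : ℝ := δ2 / (S.card + 1) with hδ
  have hδ0 : 0 < δ := by positivity
  have hBDN' : ∀ P ∈ insert X S, ∃ N₀ : ℕ, ∀ N : ℕ, N₀ ≤ N →
      ({B : Matrix (Fin 3) (Fin 3) (AdjoinRoot (P ^ N)) | Bᵀ = B ∧ dB B = 0}.ncard : ℝ) ≤
        δ * (Nat.card F : ℝ) ^ (6 * (N * P.natDegree)) := by
    intro P hP
    rw [Finset.mem_insert] at hP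
    rcases hP with rfl | hP
    · exact hBDN F h2 X monic_X irreducible_X δ hδ0
    · exact hBDN F h2 P (hS1 P hP).1 (hS1 P hP).2 δ hδ0
  choose! N₀ hN₀ using hBDN'
  set N : ℕ := max 1 ((insert X S).sup N₀) with hNdef
  have hN : 1 ≤ N := le_max_left _ _
  have hNP : ∀ P ∈ insert X S,
      ({B : Matrix (Fin 3) (Fin 3) (AdjoinRoot (P ^ N)) | Bᵀ = B ∧ dB B = 0}.ncard : ℝ) ≤
        δ * (Nat.card F : ℝ) ^ (6 * (N * P.natDegree)) := by
    intro P hP
    exact hN₀ P hP N ((Finset.le_sup hP).trans (le_max_right _ _))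
  set D : ℕ := (∑ P ∈ S, N * P.natDegree) + N with hD
  set δ3 : ℝ := ε / (384 * q ^ 3) with hδ3
  have hδ30 : 0 < δ3 := by positivity
  obtain ⟨D3, hD3⟩ := hRED F h2 δ3 hδ30
  have hC := CS_pos S
  obtain ⟨M1, hM1⟩ := ST3.tail q (ε / 12 / CS S) hq (by positivity) D
  obtain ⟨M2, hM2⟩ := ST3.tail q (ε / 24) hq (by positivity) D
  obtain ⟨M3, hM31, hM3⟩ := ST2.largeN q (ε / 24) hq (by positivity) D3
  refine ⟨max (max M1 M2) M3, fun n hn => ?_⟩
  have hnM1 : M1 ≤ n := (le_max_left _ _).trans ((le_max_left _ _).trans hn)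
  have hnM2 : M2 ≤ n := (le_max_right _ _).trans ((le_max_left _ _).trans hn)
  have hnM3 : M3 ≤ n := (le_max_right _ _).trans hn
  have hn1 : 1 ≤ n := hM31.trans hnM3
  obtain ⟨hFamfin, hFamcard, hBadc⟩ := hCNF F h2 n hn1
  have hIfin : (Irr F n).Finite := hFamfin.subset (fun f hf => hf.1)
  have hRfin : (ST2.Rd F n).Finite := hFamfin.subset (fun f hf => hf.1)
  have hEll := ST2.Ell_eq hDSC h2 n
  have hEfin : (Ell F n).Finite := by
    rw [hEll]
    exact hIfin.union hRfin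
  have hIE : Irr F n ⊆ Ell F n := by
    rw [hEll]
    exact Set.subset_union_left
  have hRE : ST2.Rd F n ⊆ Ell F n := by
    rw [hEll]
    exact Set.subset_union_right
  set T : ℝ := q ^ (12 * n + 3) with hT
  have hT0 : 0 < T := by positivity
  have hT6 : q ^ (12 * n + 6) = q ^ 3 * T := by
    rw [hT, ← pow_add]
    congr 1
    ring
  have hlarge := hM3 n hnM3
  have hP0 : 0 < q ^ (8 * n + 3) := by positivity
  have hDD0 : 0 ≤ 8 * (q ^ (12 * n + 6) * (D3 * (q ^ D3 / q ^ n))) := by positivity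
  -- unweighted bounds
  have hWI : ∀ f ∈ Irr F n, (Sel f).Finite ∧ ((Sel f \ {1}).ncard : ℝ) ≤
      1 * ∑ m ∈ Finset.range (n + 1), ((Fi n m f).ncard : ℝ) / (GG F m).ncard := by
    intro f hf
    have h := hWUN F h2 n 1 f (hIE hf) (by
      intro B hB hc
      have hsub1 : {g : Matrix (Fin 3) (Fin 3) F[X] | gᵀ * AA F[X] * g = AA F[X] ∧
          gᵀ * B * g = B ∧ g.det = 1} ⊆ {1} := by
        intro g hg
        exact st1_stab hSTAB F h2 B hB f hf.2.1 hc g hg.1 hg.2.1 hg.2.2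
      refine ⟨(Set.finite_singleton _).subset hsub1, ?_⟩
      exact (Set.ncard_le_ncard hsub1 (Set.finite_singleton _)).trans
        (by rw [Set.ncard_singleton]))
    refine ⟨h.1, ?_⟩
    have h3 := h.2
    rw [Nat.cast_one] at h3
    exact h3
  have hWR : ∀ f ∈ ST2.Rd F n, (Sel f).Finite ∧ ((Sel f \ {1}).ncard : ℝ) ≤
      8 * ∑ m ∈ Finset.range (n + 1), ((Fi n m f).ncard : ℝ) / (GG F m).ncard := by
    intro f hf
    have h := hWUN F h2 n 8 f (hRE hf) (fun B hB hc => ST2.stab hSTE h2 B hB f hf.2.1 hc)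
    refine ⟨h.1, ?_⟩
    have h3 := h.2
    rw [Nat.cast_ofNat] at h3
    exact h3
  have hSfin : ∀ f ∈ Ell F n, (Sel f).Finite := by
    intro f hf
    rw [hEll] at hf
    rcases hf with hf | hf
    · exact (hWI f hf).1
    · exact (hWR f hf).1
  refine ⟨hEfin, hSfin, ?_⟩
  -- the groups
  obtain ⟨hG1, hG2, hG3⟩ := hGRP F h2
  have hg : ∀ m, (Nat.card F : ℝ) ^ m ≤ ((GG F m).ncard : ℝ) := fun m => ST2.GG_ge hGRP h2 m
  have hg0 : (Nat.card F : ℝ) ^ 3 - Nat.card F ≤ ((GG F 0).ncard : ℝ) := by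
    have h11 : Nat.card F ≤ Nat.card F ^ 3 := Nat.le_self_pow (by norm_num) _
    have h12 : ((Nat.card F ^ 3 - Nat.card F : ℕ) : ℝ) ≤ ((GG F 0).ncard : ℝ) := by
      exact_mod_cast hG2
    rw [Nat.cast_sub h11] at h12
    push_cast at h12
    exact h12
  have hg1 : ∀ m, 1 ≤ m → ((Nat.card F : ℝ) - 1) * (Nat.card F : ℝ) ^ (m + 1) ≤
      ((GG F m).ncard : ℝ) := by
    intro m hm
    have h12 : (((Nat.card F - 1) * Nat.card F ^ (m + 1) : ℕ) : ℝ) ≤
        ((GG F m).ncard : ℝ) := by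
      exact_mod_cast hG3 m hm
    rw [Nat.cast_mul, Nat.cast_sub (le_of_lt (Finite.one_lt_card))] at h12
    push_cast at h12
    exact h12
  -- the good part
  have hGfin : (Good n N S).Finite := hIfin.subset (fun f hf => hf.1)
  have hBfin : (Bad n N S).Finite := hIfin.subset (fun f hf => hf.1)
  have hX1 := good_sum hCNB hLVF hEQP h2 S N hN hS1 n D le_rfl (Good n N S) hGfin
    (fun f => ((Sel f \ {1}).ncard : ℝ)) (fun m => ((GG F m).ncard : ℝ)) hq hg hg0 hg1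
    (fun f hf => hWUW F h2 n N S f hf.1 hN hS1 hf.2.1 hf.2.2)
  have hX1' : ∑ᶠ f ∈ Good n N S, ((Sel f \ {1}).ncard : ℝ) ≤
      q ^ 3 * T * ((1 - 1 / q ^ 2) * ∏ P ∈ S, (1 - 1 / q ^ (2 * P.natDegree))) *
        (2 / ((q - 1) ^ 2 * (q + 1))) + ε / 12 * T := by
    have h13 := hM1 n hnM1
    have h14 : CS S * (q ^ (12 * n + 6) * (D * (q ^ D / q ^ n))) ≤ ε / 12 * T := by
      calc CS S * (q ^ (12 * n + 6) * (D * (q ^ D / q ^ n))) ≤
          CS S * (ε / 12 / CS S * T) := mul_le_mul_of_nonneg_left h13 hC.le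
        _ = ε / 12 * T := by field_simp
    rw [← hT6]
    exact hX1.trans (add_le_add le_rfl h14)
  -- the bad part
  have hcardU : ∀ (G : Set (F[X] × F[X] × F[X])) (m : ℕ), m ≤ n →
      ((UU n m G).ncard : ℝ) ≤ q ^ (12 * n + 6) := by
    intro G m hmn
    obtain ⟨hC1, hC2⟩ := hCNB F n m hmn
    have h8 := (Set.ncard_le_ncard (s := UU n m G) (fun B hB => hB.1) hC1).trans hC2
    rw [hqdef]
    exact_mod_cast h8
  have hX2a := count_sum hCNB n (Bad n N S) hBfin (fun f => ((Sel f \ {1}).ncard : ℝ))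
    (fun m => ((GG F m).ncard : ℝ)) 1 (fun f hf => (hWI f hf.1).2)
  have hX2b := ST2.sumM q δ2 hq hδ20 D n (fun m => ((UU n m (Bad n N S)).ncard : ℝ))
    (fun m => ((GG F m).ncard : ℝ)) (fun m => Nat.cast_nonneg _)
    (fun m hm => hcardU (Bad n N S) m hm)
    (fun m hm => by
      have h15 := bad_count hLVF hEQP hCNB hBIN hCHI h2 S N hN hS1 δ hδ0.le
        (fun P hP => hNP P (Finset.mem_insert_of_mem hP)) (hNP X (Finset.mem_insert_self _ _))
        n m D le_rfl hm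
      refine h15.trans (le_of_eq ?_)
      show ((S.card : ℝ) + 1) * δ * q ^ (12 * n + 6) = δ2 * q ^ (12 * n + 6)
      rw [hδ]
      field_simp)
    hg
  have hX2 : ∑ᶠ f ∈ Bad n N S, ((Sel f \ {1}).ncard : ℝ) ≤ ε / 12 * T := by
    have h13 := hM2 n hnM2
    have h16 : q ^ (12 * n + 6) * (2 * δ2) = ε / 24 * T := by
      rw [hT6, hδ2]
      field_simp
      ring
    rw [one_mul] at hX2a
    have h17 : q ^ (12 * n + 6) * (2 * δ2 + D * (q ^ D / q ^ n)) =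
      q ^ (12 * n + 6) * (2 * δ2) + q ^ (12 * n + 6) * (D * (q ^ D / q ^ n)) := by ring
    rw [h17, h16] at hX2b
    linarith
  -- the reducible part
  have hX3a := count_sum hCNB n (ST2.Rd F n) hRfin (fun f => ((Sel f \ {1}).ncard : ℝ))
    (fun m => ((GG F m).ncard : ℝ)) 8 (fun f hf => (hWR f hf).2)
  have hX3b := ST2.sumM q δ3 hq hδ30 D3 n (fun m => ((UU n m (ST2.Rd F n)).ncard : ℝ))
    (fun m => ((GG F m).ncard : ℝ)) (fun m => Nat.cast_nonneg _)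
    (fun m hm => hcardU (ST2.Rd F n) m hm)
    (fun m hm => by
      obtain ⟨hf, _⟩ := hCNB F n m (by omega)
      refine le_trans ?_ (hD3 n m hm)
      have h9 : UU n m (ST2.Rd F n) ⊆
          {B : Matrix (Fin 3) (Fin 3) F[X] | Bd n m B ∧ ∃ f ∈ Fam F n,
            ¬ Irreducible (cubK f) ∧ (AA F[X] * B).charpoly = cubP f} := by
        rintro B ⟨hB, f, hf', hc⟩
        exact ⟨hB, f, hf'.1, hf'.2.2, hc⟩
      exact_mod_cast Set.ncard_le_ncard h9 (hf.subset (fun B hB => hB.1)))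
    hg
  have hX3 : ∑ᶠ f ∈ ST2.Rd F n, ((Sel f \ {1}).ncard : ℝ) ≤ ε / 12 * T := by
    have h16 : 8 * (q ^ (12 * n + 6) * (2 * δ3)) = ε / 24 * T := by
      rw [hT6, hδ3]
      field_simp
      ring
    have h17 : q ^ (12 * n + 6) * (2 * δ3 + D3 * (q ^ D3 / q ^ n)) =
      q ^ (12 * n + 6) * (2 * δ3) + q ^ (12 * n + 6) * (D3 * (q ^ D3 / q ^ n)) := by ring
    rw [h17] at hX3b
    linarith
  -- the size of the family
  have hIcard : T ≤ (Irr F n).ncard + 2 * q ^ (8 * n + 3) := by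
    have hsub : Fam F n ⊆ Irr F n ∪
        {f ∈ Fam F n | ¬ (Irreducible (cubK f) ∧ (cubK f).Separable)} := by
      intro f hf
      by_cases h : Irreducible (cubK f) ∧ (cubK f).Separable
      · exact Or.inl ⟨hf, h.1, h.2⟩
      · exact Or.inr ⟨hf, h⟩
    have h5 := (Set.ncard_le_ncard hsub (hIfin.union (hFamfin.subset (fun f hf => hf.1)))).trans
      (Set.ncard_union_le _ _)
    rw [hFamcard] at h5
    have h6 := h5.trans (Nat.add_le_add_left hBadc _)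
    rw [hT, hqdef]
    exact_mod_cast h6
  have hEcard : T * (1 - ε / 24) ≤ ((Ell F n).ncard : ℝ) := by
    have h18 : ((Irr F n).ncard : ℝ) ≤ (Ell F n).ncard := by
      exact_mod_cast Set.ncard_le_ncard hIE hEfin
    linarith
  -- the total
  have hdisj : Disjoint (Good n N S) (Bad n N S) := by
    rw [Set.disjoint_left]
    rintro f h1 h3
    exact h3.2 h1.2
  have hIrr : Irr F n = Good n N S ∪ Bad n N S := by
    ext f
    constructor
    · intro hf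
      by_cases h : (∀ P ∈ S, ¬ P ^ N ∣ disc f.1 f.2.1 f.2.2) ∧
        ¬ X ^ N ∣ disc (finf n f).1 (finf n f).2.1 (finf n f).2.2
      · exact Or.inl ⟨hf, h⟩
      · exact Or.inr ⟨hf, h⟩
    · rintro (hf | hf)
      · exact hf.1
      · exact hf.1
  have hsum : ∑ᶠ f ∈ Ell F n, ((Sel f \ {1}).ncard : ℝ) =
      ∑ᶠ f ∈ Good n N S, ((Sel f \ {1}).ncard : ℝ) +
        ∑ᶠ f ∈ Bad n N S, ((Sel f \ {1}).ncard : ℝ) +
          ∑ᶠ f ∈ ST2.Rd F n, ((Sel f \ {1}).ncard : ℝ) := by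
    rw [hEll, finsum_mem_union (ST2.disj n) hIfin hRfin, ← finsum_mem_union hdisj hGfin hBfin,
      ← hIrr]
  have hsum1 : ∑ᶠ f ∈ Ell F n, ((Sel f).ncard : ℝ) ≤
      (Ell F n).ncard + ∑ᶠ f ∈ Ell F n, ((Sel f \ {1}).ncard : ℝ) := by
    have h19 : ((Ell F n).ncard : ℝ) = ∑ᶠ _f ∈ Ell F n, (1 : ℝ) := by
      rw [fsum_const hEfin, mul_one]
    rw [h19, ← finsum_mem_add_distrib hEfin]
    refine fsum_le hEfin _ _ (fun f _ => ?_)
    have h20 := Set.ncard_le_ncard_diff_add_ncard (Sel f) {1} (Set.finite_singleton _)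
    rw [Set.ncard_singleton] at h20
    have h21 : ((Sel f).ncard : ℝ) ≤ (Sel f \ {1}).ncard + 1 := by exact_mod_cast h20
    linarith
  have hfinal := final q ε T (∏ P ∈ S, (1 - 1 / q ^ (2 * P.natDegree))) ((Ell F n).ncard : ℝ)
    _ _ _ hq hε hε1 hT0 hZ hX1' hX2 hX3 hEcard
  have h22 : (3 + ε) * ((Ell F n).ncard : ℝ) ≤ (3 + ε0) * (Ell F n).ncard :=
    mul_le_mul_of_nonneg_right (by linarith) (Nat.cast_nonneg _)
  rw [hsum] at hsum1
  linarith

end Pool.AVS
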