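import Pool.Agent.H14.AVS.S5
import Pool.Agent.H33.AVR.TA5
import Pool.Agent.H99.AVR.CNB

/-!
# AVS, module TB4: large primes with a singular point
-/

set_option autoImplicit false

namespace Pool.AVS

open Polynomial Matrix Pool.AVR

namespace TB4

open Pool.AVR.H86

section Alg

/-- The matrix. -/
def MB {R : Type} (al be ga de et z : R) : Matrix (Fin 3) (Fin 3) R :=
  !![al, be, ga; be, de, et; ga, et, z]

variable {R : Type} [CommRing R]

/-- The coefficients of the discriminant as a cubic polynomial in the last entry. -/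
def c3 (al : R) : R := 4 * al ^ 3

def c2 (al be ga de et : R) : R :=
  (2 * ga + de) ^ 2 * al ^ 2 - 12 * (2 * ga * de - 2 * et * be + ga ^ 2) * al ^ 2 +
    18 * (2 * ga + de) * al * (al * de - be ^ 2) - 27 * (al * de - be ^ 2) ^ 2

def c1 (al be ga de et : R) : R :=
  -2 * (2 * ga + de) ^ 2 * (2 * ga * de - 2 * et * be + ga ^ 2) * al +
    12 * (2 * ga * de - 2 * et * be + ga ^ 2) ^ 2 * al +
    4 * (2 * ga + de) ^ 3 * (al * de - be ^ 2) -
    18 * (2 * ga + de) * ((2 * ga * de - 2 * et * be + ga ^ 2) * (al * de - be ^ 2) -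
      al * (-al * et ^ 2 + 2 * be * et * ga - de * ga ^ 2)) -
    54 * (-al * et ^ 2 + 2 * be * et * ga - de * ga ^ 2) * (al * de - be ^ 2)

def c0 (al be ga de et : R) : R :=
  (2 * ga + de) ^ 2 * (2 * ga * de - 2 * et * be + ga ^ 2) ^ 2 -
    4 * (2 * ga * de - 2 * et * be + ga ^ 2) ^ 3 +
    4 * (2 * ga + de) ^ 3 * (-al * et ^ 2 + 2 * be * et * ga - de * ga ^ 2) -
    18 * (2 * ga + de) * (2 * ga * de - 2 * et * be + ga ^ 2) *
      (-al * et ^ 2 + 2 * be * et * ga - de * ga ^ 2) -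
    27 * (-al * et ^ 2 + 2 * be * et * ga - de * ga ^ 2) ^ 2

theorem dB_MB (al be ga de et z : R) : dB (MB al be ga de et z) =
    c3 al * z ^ 3 + c2 al be ga de et * z ^ 2 + c1 al be ga de et * z + c0 al be ga de et := by
  simp only [dB, disc, ia, ib, ic, MB, det_fin_three, c3, c2, c1, c0]
  simp
  ring

theorem disc_comb (a b c s : R) : disc a b c =
    ((18 * b - 6 * a ^ 2) * s + 15 * a * b - 27 * c - 4 * a ^ 3) *
      (s ^ 3 + a * s ^ 2 + b * s + c) +
    ((2 * a ^ 2 - 6 * b) * s ^ 2 + (2 * a ^ 3 - 7 * a * b + 9 * c) * s +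
      (a ^ 2 * b + 3 * a * c - 4 * b ^ 2)) * (3 * s ^ 2 + 2 * a * s + b) := by
  unfold disc
  ring

end Alg

section Count

variable {F : Type} [Field F]

theorem cubic_class (Z : Set F[X]) (hZ : Z.Finite) (P : F[X]) (hP : Irreducible P)
    (M : ℕ) (hM : ∀ r : F[X], ({z ∈ Z | P ∣ z - r} : Set F[X]).ncard ≤ M) (k3 k2 k1 k0 : F[X])
    (h : ¬ (P ∣ k3 ∧ P ∣ k2 ∧ P ∣ k1)) :
    ({z ∈ Z | P ∣ k3 * z ^ 3 + k2 * z ^ 2 + k1 * z + k0} : Set F[X]).ncard ≤ 3 * M := by
  classical
  have hF := Fact.mk hP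
  set φ : (AdjoinRoot P)[X] := C (AdjoinRoot.mk P k3) * X ^ 3 + C (AdjoinRoot.mk P k2) * X ^ 2 +
    C (AdjoinRoot.mk P k1) * X + C (AdjoinRoot.mk P k0) with hφ
  have hφ0 : φ ≠ 0 := by
    intro h0
    apply h
    have h3 := congrArg (fun p => p.coeff 3) h0
    have h2 := congrArg (fun p => p.coeff 2) h0
    have h1 := congrArg (fun p => p.coeff 1) h0
    simp only [hφ, coeff_add, coeff_C_mul, coeff_X_pow, coeff_X, coeff_C, coeff_zero] at h1 h2 h3
    norm_num at h1 h2 h3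
    exact ⟨h3, h2, h1⟩
  have hdeg : φ.natDegree ≤ 3 := by
    rw [hφ]
    compute_degree
  have hcard : ((φ.roots.toFinset : Finset (AdjoinRoot P)) : Set (AdjoinRoot P)).ncard ≤ 3 := by
    rw [Set.ncard_coe_finset]
    exact (Multiset.toFinset_card_le _).trans ((card_roots' _).trans hdeg)
  have h5 := ncard_fibre (fun z : F[X] => AdjoinRoot.mk P z)
    ((φ.roots.toFinset : Finset (AdjoinRoot P)) : Set (AdjoinRoot P)) (Finset.finite_toSet _)
    {z ∈ Z | P ∣ k3 * z ^ 3 + k2 * z ^ 2 + k1 * z + k0} (hZ.subset (fun _ h => h.1)) M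
    (by
      rintro z ⟨_, hz⟩
      rw [Finset.mem_coe, Multiset.mem_toFinset, mem_roots hφ0, IsRoot.def, hφ]
      simp only [eval_add, eval_mul, eval_C, eval_pow, eval_X]
      rw [← map_pow, ← map_pow, ← map_mul, ← map_mul, ← map_mul, ← map_add, ← map_add,
        ← map_add]
      exact AdjoinRoot.mk_eq_zero.2 hz)
    (by
      intro a _
      obtain ⟨r, rfl⟩ := AdjoinRoot.mk_surjective a
      refine le_trans (Set.ncard_le_ncard ?_ (hZ.subset (fun _ h => h.1))) (hM r)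
      rintro z ⟨⟨hz, _⟩, he⟩
      refine ⟨hz, ?_⟩
      rw [← AdjoinRoot.mk_eq_zero, map_sub]
      exact sub_eq_zero.2 he)
  exact h5.trans (Nat.mul_le_mul_right _ hcard)

theorem coset_class [Finite F] (p : ℕ) [Fact p.Prime] [CharP F p] (N : ℕ) (P : F[X])
    (hP : Irreducible P) (ζ r : F[X]) :
    ({z ∈ {z ∈ PD F N | derivative z = ζ} | P ∣ z - r} : Set F[X]).ncard ≤
      Nat.card F ^ (N / p + 1 - P.natDegree) := by
  rcases Set.eq_empty_or_nonempty ({z ∈ {z ∈ PD F N | derivative z = ζ} | P ∣ z - r} :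
    Set F[X]) with h | ⟨z0, ⟨hz0, hd0⟩, hr0⟩
  · rw [h, Set.ncard_empty]
    exact Nat.zero_le _
  have hp : p ≠ 0 := (Fact.out : p.Prime).ne_zero
  refine le_trans ?_ (ncard_class (N / p) P 0 hP.ne_zero)
  have hkey : ∀ z : F[X], derivative z = ζ →
      ((contract p (z - z0)).map ((frobeniusEquiv F p).symm : F →+* F)) ^ p = z - z0 := by
    intro z hz
    have h1 := polynomial_expand_eq F p (contract p (z - z0))
    rw [expand_contract p (by rw [derivative_sub, hz, hd0, sub_self]) hp] at h1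
    exact h1.symm
  refine Set.ncard_le_ncard_of_injOn
    (fun z => (contract p (z - z0)).map ((frobeniusEquiv F p).symm : F →+* F)) ?_ ?_
    ((PD_finite _).subset (fun _ h => h.1))
  · rintro z ⟨⟨hz, hd⟩, hr⟩
    have h1 := hkey z hd
    refine ⟨?_, ?_⟩
    · have h2 : (z - z0).natDegree ≤ N := (natDegree_sub_le _ _).trans (max_le hz hz0)
      rw [← h1, natDegree_pow] at h2
      show (Polynomial.map ((frobeniusEquiv F p).symm : F →+* F) (contract p (z - z0))).natDegree ≤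
        N / p
      rw [Nat.le_div_iff_mul_le (Nat.pos_of_ne_zero hp), mul_comm]
      exact h2
    · rw [sub_zero]
      apply hP.prime.dvd_of_dvd_pow (n := p)
      rw [h1]
      have := dvd_sub hr hr0
      simpa using this
  · rintro z ⟨⟨_, hd⟩, _⟩ z' ⟨⟨_, hd'⟩, _⟩ he
    have h1 := hkey z hd
    have h2 := hkey z' hd'
    simp only at he
    rw [he, h2] at h1
    exact (sub_left_inj.1 h1).symm

/-- the large primes dividing `R` -/
def LP (n : ℕ) (R : F[X]) : Set F[X] :=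
  {P | P.Monic ∧ Irreducible P ∧ n < 2 * P.natDegree ∧ P ∣ R}

theorem LP_finite [Finite F] (n : ℕ) (R : F[X]) (hR : R ≠ 0) : (LP n R).Finite :=
  (PD_finite R.natDegree).subset (fun _ hP => natDegree_le_of_dvd hP.2.2.2 hR)

theorem LP_card [Finite F] (n : ℕ) (R : F[X]) (hR : R ≠ 0) :
    (LP n R).ncard * (n + 1) ≤ 2 * R.natDegree := by
  have hfin := LP_finite n R hR
  rw [Set.ncard_eq_toFinset_card _ hfin]
  set S := hfin.toFinset with hS
  have hmem : ∀ P ∈ S, P.Monic ∧ Irreducible P ∧ n < 2 * P.natDegree ∧ P ∣ R := by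
    intro P hP
    rw [hS, Set.Finite.mem_toFinset] at hP
    exact hP
  have h1 : ∏ P ∈ S, P ∣ R := by
    refine Finset.prod_dvd_of_coprime (s := fun P : F[X] => P) ?_ (fun P hP => (hmem P hP).2.2.2)
    intro P hP Q hQ hne
    change IsCoprime P Q
    obtain ⟨hPm, hPi, _⟩ := hmem P hP
    obtain ⟨hQm, hQi, _⟩ := hmem Q hQ
    rw [hPi.coprime_iff_not_dvd]
    intro hdvd
    exact hne (eq_of_monic_of_associated hPm hQm (hPi.associated_of_dvd hQi hdvd))
  have h2 := natDegree_le_of_dvd h1 hR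
  have h3 : (∏ P ∈ S, P).natDegree = ∑ P ∈ S, P.natDegree :=
    natDegree_prod_of_monic S (fun P => P) (fun P hP => (hmem P hP).1)
  have h4 : S.card * (n + 1) ≤ ∑ P ∈ S, 2 * P.natDegree := by
    rw [← smul_eq_mul]
    exact Finset.card_nsmul_le_sum _ _ _ (fun P hP => (hmem P hP).2.2.1)
  rw [← Finset.mul_sum] at h4
  omega

theorem ncard_coset_le [Finite F] (N : ℕ) (ζ : F[X]) :
    ({z ∈ PD F N | derivative z = ζ} : Set F[X]).ncard ≤ (TA5.K0 F N).ncard := by
  rcases Set.eq_empty_or_nonempty ({z ∈ PD F N | derivative z = ζ} : Set F[X]) with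
    h | ⟨z0, hz0, hd0⟩
  · rw [h, Set.ncard_empty]
    exact Nat.zero_le _
  refine Set.ncard_le_ncard_of_injOn (fun z => z - z0) ?_ ?_ (TA5.K0_finite N)
  · rintro z ⟨hz, hd⟩
    refine ⟨(natDegree_sub_le _ _).trans (max_le hz hz0), ?_⟩
    show derivative (z - z0) = 0
    rw [derivative_sub, hd, hd0, sub_self]
  · intro z _ z' _ he
    exact sub_left_injective he

theorem union_le {α β : Type} (A : Set β) (hA : A.Finite) (Z : Set α) (hZ : Z.Finite)
    (Q : β → α → Prop) (M : ℕ) (h : ∀ P ∈ A, ({z ∈ Z | Q P z} : Set α).ncard ≤ M) :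
    ({z ∈ Z | ∃ P ∈ A, Q P z} : Set α).ncard ≤ A.ncard * M := by
  classical
  have hsub : ({z ∈ Z | ∃ P ∈ A, Q P z} : Set α) ⊆ ⋃ P ∈ hA.toFinset, {z ∈ Z | Q P z} := by
    rintro z ⟨hz, P, hP, hQ⟩
    simp only [Set.mem_iUnion]
    exact ⟨P, hA.mem_toFinset.mpr hP, hz, hQ⟩
  have hfin : (⋃ P ∈ hA.toFinset, {z ∈ Z | Q P z}).Finite := by
    refine hZ.subset ?_
    intro z hz
    simp only [Set.mem_iUnion] at hz
    obtain ⟨P, _, hz, _⟩ := hz
    exact hz
  calc _ ≤ _ := Set.ncard_le_ncard hsub hfin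
    _ ≤ _ := Finset.set_ncard_biUnion_le _ _
    _ ≤ hA.toFinset.card • M := Finset.sum_le_card_nsmul _ _ _
        (fun P hP => h P (hA.mem_toFinset.mp hP))
    _ = A.ncard * M := by rw [smul_eq_mul, Set.ncard_eq_toFinset_card _ hA]

theorem cast3 (h3 : (3 : F) = 0) : (3 : F[X]) = 0 := by
  have h4 : (C (3 : F) : F[X]) = C 0 := congrArg C h3
  rw [C_0] at h4
  rw [← h4]
  exact (map_ofNat C 3).symm

theorem notdvd_A (h2 : (2 : F) ≠ 0) (P al be ga de et : F[X]) (hP : Irreducible P)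
    (hal : P ∣ al) (hbe : ¬ P ∣ be) (ha : ¬ P ∣ 2 * ga + de) :
    ¬ (P ∣ c3 al ∧ P ∣ c2 al be ga de et ∧ P ∣ c1 al be ga de et) := by
  rintro ⟨_, h5, h4⟩
  have hbe2 : ¬ P ∣ (al * de - be ^ 2) := by
    intro h
    have h6 : P ∣ be ^ 2 := by
      have h7 := dvd_sub (hal.mul_right de) h
      have h8 : al * de - (al * de - be ^ 2) = be ^ 2 := by ring
      rwa [h8] at h7
    exact hbe (hP.prime.dvd_of_dvd_pow h6)
  by_cases h3 : (3 : F) = 0
  · have e3 := cast3 h3
    apply hbe2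
    have h6 : c1 al be ga de et = al * (-2 * (2 * ga + de) ^ 2 *
        (2 * ga * de - 2 * et * be + ga ^ 2) +
        12 * (2 * ga * de - 2 * et * be + ga ^ 2) ^ 2) +
        4 * ((2 * ga + de) ^ 3 * (al * de - be ^ 2)) := by
      unfold c1
      linear_combination (-6 * (2 * ga + de) * ((2 * ga * de - 2 * et * be + ga ^ 2) *
        (al * de - be ^ 2) - al * (-al * et ^ 2 + 2 * be * et * ga - de * ga ^ 2)) -
        18 * (-al * et ^ 2 + 2 * be * et * ga - de * ga ^ 2) * (al * de - be ^ 2)) * e3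
    rw [h6] at h4
    have h7 : P ∣ 4 * ((2 * ga + de) ^ 3 * (al * de - be ^ 2)) :=
      (dvd_add_right (hal.mul_right _)).1 h4
    rcases hP.prime.dvd_or_dvd h7 with h8 | h8
    · exact absurd h8 (TA5.not_dvd_unit hP (TA5.unit4 h2))
    · rcases hP.prime.dvd_or_dvd h8 with h9 | h9
      · exact absurd (hP.prime.dvd_of_dvd_pow h9) ha
      · exact h9
  · apply hbe2
    have h6 : c2 al be ga de et = al * ((2 * ga + de) ^ 2 * al -
        12 * (2 * ga * de - 2 * et * be + ga ^ 2) * al +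
        18 * (2 * ga + de) * (al * de - be ^ 2)) - 27 * (al * de - be ^ 2) ^ 2 := by
      unfold c2
      ring
    rw [h6] at h5
    have h7 : P ∣ 27 * (al * de - be ^ 2) ^ 2 := (dvd_sub_right (hal.mul_right _)).1 h5
    rcases hP.prime.dvd_or_dvd h7 with h8 | h8
    · exact absurd h8 (TA5.not_dvd_unit hP (TA5.unit27 h3))
    · exact hP.prime.dvd_of_dvd_pow h8

theorem notdvd_B (h2 : (2 : F) ≠ 0) (P al be ga de et : F[X]) (hP : Irreducible P)
    (hal : ¬ P ∣ al) : ¬ (P ∣ c3 al ∧ P ∣ c2 al be ga de et ∧ P ∣ c1 al be ga de et) := by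
  rintro ⟨h, _, _⟩
  unfold c3 at h
  rcases hP.prime.dvd_or_dvd h with h8 | h8
  · exact absurd h8 (TA5.not_dvd_unit hP (TA5.unit4 h2))
  · exact hal (hP.prime.dvd_of_dvd_pow h8)

theorem dvd_dB (P al be ga de et z : F[X])
    (h : SngP P (ia (MB al be ga de et z)) (ib (MB al be ga de et z))
      (ic (MB al be ga de et z))) :
    P ∣ c3 al * z ^ 3 + c2 al be ga de et * z ^ 2 + c1 al be ga de et * z +
      c0 al be ga de et := by
  obtain ⟨s, h1, h3, _⟩ := h
  rw [← dB_MB]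
  unfold dB
  rw [disc_comb _ _ _ s]
  exact dvd_add (h1.mul_left _) (h3.mul_left _)

/-- The bad values of the last entry. -/
def W (n m : ℕ) (al be ga de et : F[X]) : Set F[X] :=
  {z ∈ PD F (2 * n + 2 * m) | ∃ P : F[X], P.Monic ∧ Irreducible P ∧ n < 2 * P.natDegree ∧
    SngP P (ia (MB al be ga de et z)) (ib (MB al be ga de et z)) (ic (MB al be ga de et z)) ∧
    ¬ (P ∣ al ∧ (P ∣ be ∨ P ∣ ia (MB al be ga de et z)))}

theorem W_card [Finite F] (hTB7 : TB7Stmt) (h2 : (2 : F) ≠ 0) (p : ℕ) [Fact p.Prime]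
    [CharP F p] (n m : ℕ) (al be ga de et : F[X])
    (hal : al.natDegree ≤ 2 * n) (hbe : be.natDegree ≤ 2 * n + 2 * m)
    (hga : ga.natDegree ≤ 2 * n + 2 * m) (hde : de.natDegree ≤ 2 * n + 2 * m)
    (het : et.natDegree ≤ 2 * n + 2 * m) (hal0 : al ≠ 0)
    (hnu : nuB (MB al be ga de et 0) ≠ 0) :
    (W n m al be ga de et).ncard ≤
      3 * (3 * Nat.card F ^ (2 * n + 2 * m + 1 - (n / 2 + 1))) +
      (3 * (TA5.K0 F (2 * n + 2 * m)).ncard +
      (TA5.Gm F (2 * n + 2 * m)).ncard * (2000 * (m + 1) *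
        (3 * Nat.card F ^ ((2 * n + 2 * m) / p + 1 - (n / 2 + 1))))) := by
  obtain ⟨R, hR1, hR2, hR3, hR4⟩ := hTB7 F h2 n m al be ga de et (by omega) hbe hga hde het hal0 hnu
  set N := 2 * n + 2 * m with hN
  have hq : 1 ≤ Nat.card F := Nat.card_pos
  -- the three parts
  have hsub : W n m al be ga de et ⊆
      {z ∈ PD F N | ∃ P ∈ LP n al, ¬ P ∣ be ∧ ¬ P ∣ 2 * ga + de ∧
        P ∣ c3 al * z ^ 3 + c2 al be ga de et * z ^ 2 + c1 al be ga de et * z +
          c0 al be ga de et} ∪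
      ({z ∈ PD F N | R (derivative z) = 0} ∪
      {z ∈ PD F N | R (derivative z) ≠ 0 ∧ ∃ P ∈ LP n (R (derivative z)), ¬ P ∣ al ∧
        P ∣ c3 al * z ^ 3 + c2 al be ga de et * z ^ 2 + c1 al be ga de et * z +
          c0 al be ga de et}) := by
    rintro z ⟨hz, P, hPm, hPi, hPd, hS, hn⟩
    have hd := dvd_dB P al be ga de et z hS
    by_cases hPal : P ∣ al
    · left
      refine ⟨hz, P, ⟨hPm, hPi, hPd, hPal⟩, fun h => hn ⟨hPal, Or.inl h⟩, fun h => hn ⟨hPal, ?_⟩,
        hd⟩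
      right
      have e : ia (MB al be ga de et z) = -(2 * ga + de) := by
        simp [ia, MB]
      rw [e]
      exact (dvd_neg).2 h
    · right
      by_cases hR0 : R (derivative z) = 0
      · left
        exact ⟨hz, hR0⟩
      · right
        exact ⟨hz, hR0, P, ⟨hPm, hPi, hPd, hR4 P z hPi hPal hS⟩, hPal, hd⟩
  have hfin : (PD F N).Finite := PD_finite N
  refine (Set.ncard_le_ncard hsub ((hfin.subset (fun _ h => h.1)).union
    ((hfin.subset (fun _ h => h.1)).union (hfin.subset (fun _ h => h.1))))).trans ?_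
  refine (Set.ncard_union_le _ _).trans (add_le_add ?_ ((Set.ncard_union_le _ _).trans
    (add_le_add ?_ ?_)))
  · -- first part
    have h5 := union_le (LP n al) (LP_finite n al hal0) (PD F N) hfin
      (fun P z => ¬ P ∣ be ∧ ¬ P ∣ 2 * ga + de ∧
        P ∣ c3 al * z ^ 3 + c2 al be ga de et * z ^ 2 + c1 al be ga de et * z +
          c0 al be ga de et) (3 * Nat.card F ^ (N + 1 - (n / 2 + 1))) (by
        rintro P ⟨hPm, hPi, hPd, hPal⟩
        by_cases hc : ¬ P ∣ be ∧ ¬ P ∣ 2 * ga + de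
        · have h6 := cubic_class (PD F N) hfin P hPi (Nat.card F ^ (N + 1 - P.natDegree))
            (fun r => ncard_class N P r hPi.ne_zero) (c3 al) (c2 al be ga de et)
            (c1 al be ga de et) (c0 al be ga de et)
            (notdvd_A h2 P al be ga de et hPi hPal hc.1 hc.2)
          refine (Set.ncard_le_ncard ?_ (hfin.subset (fun _ h => h.1))).trans (h6.trans ?_)
          · rintro z ⟨hz, _, _, h⟩
            exact ⟨hz, h⟩
          · apply Nat.mul_le_mul_left
            exact Nat.pow_le_pow_right hq (by omega)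
        · have h7 : ({z ∈ PD F N | ¬ P ∣ be ∧ ¬ P ∣ 2 * ga + de ∧
            P ∣ c3 al * z ^ 3 + c2 al be ga de et * z ^ 2 + c1 al be ga de et * z +
              c0 al be ga de et} : Set F[X]) = ∅ := by
            rw [Set.eq_empty_iff_forall_notMem]
            rintro z ⟨_, h, h', _⟩
            exact hc ⟨h, h'⟩
          rw [h7, Set.ncard_empty]
          exact Nat.zero_le _)
    refine h5.trans (Nat.mul_le_mul_right _ ?_)
    have h8 := LP_card n al hal0
    by_contra hcon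
    have h9 : 4 * (n + 1) ≤ (LP n al).ncard * (n + 1) := Nat.mul_le_mul_right _ (by omega)
    omega
  · -- second part
    have h5 := ncard_fibre (fun z : F[X] => derivative z) {ζ : F[X] | R ζ = 0} hR1
      {z ∈ PD F N | R (derivative z) = 0} (hfin.subset (fun _ h => h.1))
      (TA5.K0 F N).ncard (fun z hz => hz.2) (by
        intro ζ _
        refine (Set.ncard_le_ncard ?_ (hfin.subset (fun _ h => h.1))).trans (ncard_coset_le N ζ)
        rintro z ⟨⟨hz, _⟩, he⟩
        exact ⟨hz, he⟩)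
    exact h5.trans (Nat.mul_le_mul_right _ hR2)
  · -- third part
    refine ncard_fibre (fun z : F[X] => derivative z) (TA5.Gm F N) (TA5.Gm_finite N) _
      (hfin.subset (fun _ h => h.1)) _ (fun z hz => ⟨z, hz.1, rfl⟩) ?_
    intro ζ hζ
    obtain ⟨z1, hz1, hz1'⟩ := hζ
    have hζN : ζ.natDegree ≤ N := by
      rw [← hz1']
      have h6 := natDegree_derivative_le z1
      have h7 : z1.natDegree ≤ N := hz1
      show (derivative z1).natDegree ≤ N
      omega
    by_cases hR0 : R ζ = 0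
    · have h7 : ({z ∈ {z ∈ PD F N | R (derivative z) ≠ 0 ∧ ∃ P ∈ LP n (R (derivative z)),
          ¬ P ∣ al ∧ P ∣ c3 al * z ^ 3 + c2 al be ga de et * z ^ 2 + c1 al be ga de et * z +
          c0 al be ga de et} | derivative z = ζ} : Set F[X]) = ∅ := by
        rw [Set.eq_empty_iff_forall_notMem]
        rintro z ⟨⟨_, h, _⟩, he⟩
        rw [he] at h
        exact h hR0
      rw [h7, Set.ncard_empty]
      exact Nat.zero_le _
    · have hcf : ({z ∈ PD F N | derivative z = ζ} : Set F[X]).Finite :=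
        hfin.subset (fun _ h => h.1)
      have h5 := union_le (LP n (R ζ)) (LP_finite n (R ζ) hR0) {z ∈ PD F N | derivative z = ζ} hcf
        (fun P z => ¬ P ∣ al ∧
          P ∣ c3 al * z ^ 3 + c2 al be ga de et * z ^ 2 + c1 al be ga de et * z +
            c0 al be ga de et) (3 * Nat.card F ^ (N / p + 1 - (n / 2 + 1))) (by
          rintro P ⟨hPm, hPi, hPd, _⟩
          by_cases hc : ¬ P ∣ al
          · have h6 := cubic_class {z ∈ PD F N | derivative z = ζ} hcf P hPi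
              (Nat.card F ^ (N / p + 1 - P.natDegree))
              (fun r => coset_class p N P hPi ζ r) (c3 al) (c2 al be ga de et)
              (c1 al be ga de et) (c0 al be ga de et)
              (notdvd_B h2 P al be ga de et hPi hc)
            refine (Set.ncard_le_ncard ?_ (hcf.subset (fun _ h => h.1))).trans (h6.trans ?_)
            · rintro z ⟨hz, _, h⟩
              exact ⟨hz, h⟩
            · apply Nat.mul_le_mul_left
              exact Nat.pow_le_pow_right hq (by omega)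
          · have h7 : ({z ∈ {z ∈ PD F N | derivative z = ζ} | ¬ P ∣ al ∧
              P ∣ c3 al * z ^ 3 + c2 al be ga de et * z ^ 2 + c1 al be ga de et * z +
                c0 al be ga de et} : Set F[X]) = ∅ := by
              rw [Set.eq_empty_iff_forall_notMem]
              rintro z ⟨_, h, _⟩
              exact hc h
            rw [h7, Set.ncard_empty]
            exact Nat.zero_le _)
      have h8 := LP_card n (R ζ) hR0
      have h9 := hR3 ζ hζN
      have h10 : (LP n (R ζ)).ncard ≤ 2000 * (m + 1) := by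
        have h11 : (LP n (R ζ)).ncard * (n + 1) ≤ 2000 * (m + 1) * (n + 1) := by
          have h12 : n + m + 1 ≤ (m + 1) * (n + 1) := by nlinarith
          nlinarith
        exact Nat.le_of_mul_le_mul_right h11 (Nat.succ_pos n)
      refine le_trans (Set.ncard_le_ncard ?_ (hcf.subset (fun _ h => h.1)))
        (h5.trans (Nat.mul_le_mul_right _ h10))
      rintro z ⟨⟨hz, _, P, hP, h13⟩, he⟩
      rw [he] at hP
      exact ⟨⟨hz, he⟩, P, hP, h13⟩

end Count

section Final

variable {F : Type} [Field F]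

theorem Bd_deg (n m : ℕ) (B : Matrix (Fin 3) (Fin 3) F[X]) (hB : Bd n m B) (i j : Fin 3) :
    (B i j).natDegree ≤ (2 * (n : ℤ) + dd m i + dd m j).toNat := by
  by_cases h : B i j = 0
  · rw [h, natDegree_zero]
    exact Nat.zero_le _
  · have h1 := hB.2 i j h
    omega

theorem eq_MB (B : Matrix (Fin 3) (Fin 3) F[X]) (hB : Bᵀ = B) :
    B = MB (B 0 0) (B 0 1) (B 0 2) (B 1 1) (B 1 2) (B 2 2) := by
  have h : ∀ i j, B j i = B i j := fun i j => congrFun (congrFun hB i) j
  ext1 i j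
  fin_cases i <;> fin_cases j <;> simp [MB, h 0 1, h 0 2, h 1 2]

theorem final_real (q ε C : ℝ) (hq : 1 ≤ q) (A W Q T : ℝ) (hA : 0 ≤ A) (hQ : 0 < Q)
    (hC : C ≤ ε * Q) (hT : 0 ≤ T) (hW : W * Q ≤ C * T) : A * W ≤ ε * (A * T) := by
  have h1 : W ≤ ε * T := by
    have h2 : W * Q ≤ ε * T * Q := by
      calc W * Q ≤ C * T := hW
        _ ≤ (ε * Q) * T := mul_le_mul_of_nonneg_right hC hT
        _ = ε * T * Q := by ring
    exact le_of_mul_le_mul_right h2 hQ
  calc A * W ≤ A * (ε * T) := mul_le_mul_of_nonneg_left h1 hA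
    _ = ε * (A * T) := by ring

end Final

end TB4

open TB4 Pool.AVR.H86 in
theorem tb4_thm (hTB7 : TB7Stmt) : TB4Stmt := by
  intro F _ _ h2 m ε hε
  obtain ⟨p, hchar⟩ := CharP.exists F
  have hprime : p.Prime := (CharP.char_is_prime_or_zero F p).resolve_right (by
    rintro rfl
    have := CharP.charP_to_charZero F
    exact not_finite F)
  have hFact := Fact.mk hprime
  have hp2 : 2 ≤ p := hprime.two_le
  have hq2 : 2 ≤ Nat.card F := Finite.one_lt_card
  set q : ℝ := (Nat.card F : ℝ) with hq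
  have hqR : (2 : ℝ) ≤ q := by
    rw [hq]
    exact_mod_cast hq2
  have hq0 : 0 < q := by linarith
  set Cc : ℝ := 12 + 6000 * ((m : ℝ) + 1) with hCc
  obtain ⟨k, hk⟩ := pow_unbounded_of_one_lt (Cc / ε) (show (1 : ℝ) < q by linarith)
  refine ⟨m + p * k, fun n hn => ?_⟩
  have hmn : m ≤ n := by omega
  have hpk : k ≤ n / p := by
    rw [Nat.le_div_iff_mul_le (by omega), mul_comm]
    omega
  obtain ⟨hBfin, _⟩ := cnb_thm F n m hmn
  set N := 2 * n + 2 * m with hN
  set Bn : ℕ := 3 * (3 * Nat.card F ^ (N + 1 - (n / 2 + 1))) +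
      (3 * (TA5.K0 F N).ncard + (TA5.Gm F N).ncard * (2000 * (m + 1) *
        (3 * Nat.card F ^ (N / p + 1 - (n / 2 + 1))))) with hBn
  have hAfin : (PD F (2 * n - 2 * m) ×ˢ (PD F (2 * n - m) ×ˢ (PD F (2 * n) ×ˢ
      (PD F (2 * n) ×ˢ PD F (2 * n + m))))).Finite :=
    (PD_finite _).prod ((PD_finite _).prod ((PD_finite _).prod ((PD_finite _).prod
      (PD_finite _))))
  have h1 := ncard_fibre (fun B : Matrix (Fin 3) (Fin 3) F[X] =>
    (B 0 0, B 0 1, B 0 2, B 1 1, B 1 2))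
    (PD F (2 * n - 2 * m) ×ˢ (PD F (2 * n - m) ×ˢ (PD F (2 * n) ×ˢ
      (PD F (2 * n) ×ˢ PD F (2 * n + m))))) hAfin
    {B : Matrix (Fin 3) (Fin 3) F[X] | Bd n m B ∧ B 0 0 ≠ 0 ∧ nuB B ≠ 0 ∧
      ∃ P : F[X], P.Monic ∧ Irreducible P ∧ n < 2 * P.natDegree ∧
        SngP P (ia B) (ib B) (ic B) ∧ ¬ (P ∣ B 0 0 ∧ (P ∣ B 0 1 ∨ P ∣ ia B))}
    (hBfin.subset (fun B hB => hB.1)) Bn
    (by
      rintro B ⟨hB, _⟩
      have d00 := Bd_deg n m B hB 0 0
      have d01 := Bd_deg n m B hB 0 1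
      have d02 := Bd_deg n m B hB 0 2
      have d11 := Bd_deg n m B hB 1 1
      have d12 := Bd_deg n m B hB 1 2
      simp [dd] at d00 d01 d02 d11 d12
      refine ⟨?_, ?_, ?_, ?_, ?_⟩
      · show (B 0 0).natDegree ≤ _
        omega
      · show (B 0 1).natDegree ≤ _
        omega
      · show (B 0 2).natDegree ≤ _
        omega
      · show (B 1 1).natDegree ≤ _
        omega
      · show (B 1 2).natDegree ≤ _
        omega)
    (by
      rintro ⟨al, be, ga, de, et⟩ ⟨h00, h01, h02, h11, h12⟩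
      have h00' : al.natDegree ≤ 2 * n - 2 * m := h00
      have h01' : be.natDegree ≤ 2 * n - m := h01
      have h02' : ga.natDegree ≤ 2 * n := h02
      have h11' : de.natDegree ≤ 2 * n := h11
      have h12' : et.natDegree ≤ 2 * n + m := h12
      rcases Set.eq_empty_or_nonempty {z ∈ {B : Matrix (Fin 3) (Fin 3) F[X] | Bd n m B ∧
        B 0 0 ≠ 0 ∧ nuB B ≠ 0 ∧ ∃ P : F[X], P.Monic ∧ Irreducible P ∧ n < 2 * P.natDegree ∧
        SngP P (ia B) (ib B) (ic B) ∧ ¬ (P ∣ B 0 0 ∧ (P ∣ B 0 1 ∨ P ∣ ia B))} |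
        (z 0 0, z 0 1, z 0 2, z 1 1, z 1 2) = (al, be, ga, de, et)} with h | ⟨B0, hB0, he0⟩
      · rw [h, Set.ncard_empty]
        exact Nat.zero_le _
      obtain ⟨hBd0, hne0, hnu0, _⟩ := hB0
      simp only [Prod.mk.injEq] at he0
      obtain ⟨e1, e2, e3, e4, e5⟩ := he0
      have hal0 : al ≠ 0 := by
        rw [← e1]
        exact hne0
      have hnu : nuB (MB al be ga de et 0) ≠ 0 := by
        have e6 : nuB (MB al be ga de et 0) = nuB B0 := by
          rw [← e1, ← e2, ← e3, ← e4, ← e5]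
          simp [nuB, MB]
        rw [e6]
        exact hnu0
      have hW := W_card hTB7 h2 p n m al be ga de et (by omega) (by omega) (by omega) (by omega)
        (by omega) hal0 hnu
      refine le_trans (Set.ncard_le_ncard_of_injOn (fun B => B 2 2) ?_ ?_
        ((PD_finite _).subset (fun _ h => h.1))) hW
      · rintro B ⟨⟨hB, _, _, P, hPm, hPi, hPd, hS, hn'⟩, he⟩
        simp only [Prod.mk.injEq] at he
        obtain ⟨f1, f2, f3, f4, f5⟩ := he
        have hMB : B = MB al be ga de et (B 2 2) := by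
          have := eq_MB B hB.1
          rw [f1, f2, f3, f4, f5] at this
          exact this
        have d22 := Bd_deg n m B hB 2 2
        simp [dd] at d22
        refine ⟨?_, P, hPm, hPi, hPd, ?_, ?_⟩
        · show (B 2 2).natDegree ≤ 2 * n + 2 * m
          omega
        · rw [← hMB]
          exact hS
        · rw [← hMB, ← f1, ← f2]
          exact hn'
      · rintro B ⟨⟨hB, _⟩, he⟩ B' ⟨⟨hB', _⟩, he'⟩ h22
        simp only [Prod.mk.injEq] at he he'
        obtain ⟨f1, f2, f3, f4, f5⟩ := he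
        obtain ⟨g1, g2, g3, g4, g5⟩ := he'
        simp only at h22
        rw [eq_MB B hB.1, eq_MB B' hB'.1, f1, f2, f3, f4, f5, g1, g2, g3, g4, g5, h22])
  rw [Set.ncard_prod, Set.ncard_prod, Set.ncard_prod, Set.ncard_prod, PD_ncard, PD_ncard,
    PD_ncard, PD_ncard] at h1
  -- the final inequality
  have hR : (({B : Matrix (Fin 3) (Fin 3) F[X] | Bd n m B ∧ B 0 0 ≠ 0 ∧ nuB B ≠ 0 ∧
      ∃ P : F[X], P.Monic ∧ Irreducible P ∧ n < 2 * P.natDegree ∧
        SngP P (ia B) (ib B) (ic B) ∧ ¬ (P ∣ B 0 0 ∧ (P ∣ B 0 1 ∨ P ∣ ia B))}.ncard : ℕ) : ℝ) ≤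
      (q ^ (2 * n - 2 * m + 1) * (q ^ (2 * n - m + 1) * (q ^ (2 * n + 1) *
        (q ^ (2 * n + 1) * q ^ (2 * n + m + 1))))) * (Bn : ℝ) := by
    rw [hq]
    exact_mod_cast h1
  refine hR.trans ?_
  have hG := TA5.card_Gm (F := F) N
  have hK1 := TA5.K0_lower (F := F) p (by omega) N
  have hK2 := TA5.K0_upper (F := F) p hp2 N
  have hdiv1 : n / p ≤ n / 2 := Nat.div_le_div_left hp2 (by norm_num)
  have hdiv2 : n / p ≤ N / p := Nat.div_le_div_right (by omega)
  have hQ0 : 0 < q ^ (n / p) := by positivity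
  have hT0 : 0 < q ^ (N + 1) := by positivity
  have b1 : q ^ (N + 1 - (n / 2 + 1)) * q ^ (n / p) ≤ q ^ (N + 1) := by
    rw [← pow_add]
    exact pow_le_pow_right₀ (by linarith) (by omega)
  have b2 : ((TA5.K0 F N).ncard : ℝ) * q ^ (n / p) ≤ q ^ (N + 1) := by
    have h3 : ((TA5.K0 F N).ncard : ℝ) ≤ q ^ (N / 2 + 1) := by
      rw [hq]
      exact_mod_cast hK2
    calc _ ≤ q ^ (N / 2 + 1) * q ^ (n / p) := mul_le_mul_of_nonneg_right h3 hQ0.le
      _ = q ^ (N / 2 + 1 + n / p) := (pow_add _ _ _).symm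
      _ ≤ _ := pow_le_pow_right₀ (by linarith) (by omega)
  have b3 : ((TA5.Gm F N).ncard : ℝ) * q ^ (N / p + 1 - (n / 2 + 1)) * q ^ (n / p) ≤
      q ^ (N + 1) := by
    have h3 : ((TA5.Gm F N).ncard : ℝ) * q ^ (N / p + 1) ≤ q ^ (N + 1) := by
      have h4 : (TA5.Gm F N).ncard * Nat.card F ^ (N / p + 1) ≤ Nat.card F ^ (N + 1) := by
        rw [← hG, mul_comm (TA5.K0 F N).ncard]
        exact Nat.mul_le_mul_left _ hK1
      rw [hq]
      exact_mod_cast h4
    calc _ = ((TA5.Gm F N).ncard : ℝ) * (q ^ (N / p + 1 - (n / 2 + 1) + n / p)) := by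
          rw [pow_add]
          ring
      _ ≤ ((TA5.Gm F N).ncard : ℝ) * q ^ (N / p + 1) := by
          apply mul_le_mul_of_nonneg_left _ (Nat.cast_nonneg _)
          exact pow_le_pow_right₀ (by linarith) (by omega)
      _ ≤ _ := h3
  have hBnR : (Bn : ℝ) = 3 * (3 * q ^ (N + 1 - (n / 2 + 1))) +
      (3 * ((TA5.K0 F N).ncard : ℝ) + ((TA5.Gm F N).ncard : ℝ) * (2000 * ((m : ℝ) + 1) *
        (3 * q ^ (N / p + 1 - (n / 2 + 1))))) := by
    rw [hBn, hq]
    push_cast
    ring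
  have hfin := final_real q ε Cc (by linarith) (q ^ (2 * n - 2 * m + 1) *
    (q ^ (2 * n - m + 1) * (q ^ (2 * n + 1) * (q ^ (2 * n + 1) * q ^ (2 * n + m + 1)))))
    (Bn : ℝ) (q ^ (n / p)) (q ^ (N + 1)) (by positivity) hQ0
    (by
      have h5 : Cc ≤ q ^ k * ε := by
        have := hk.le
        rwa [div_le_iff₀ hε] at this
      have h6 : q ^ k ≤ q ^ (n / p) := pow_le_pow_right₀ (by linarith) hpk
      have h7 : q ^ k * ε ≤ q ^ (n / p) * ε := mul_le_mul_of_nonneg_right h6 hε.le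
      linarith)
    hT0.le
    (by
      rw [hBnR, hCc]
      have h8 : (0 : ℝ) ≤ 6000 * ((m : ℝ) + 1) := by positivity
      have h9 := mul_le_mul_of_nonneg_left b3 h8
      have h10 : (3 * (3 * q ^ (N + 1 - (n / 2 + 1))) +
        (3 * ((TA5.K0 F N).ncard : ℝ) + ((TA5.Gm F N).ncard : ℝ) * (2000 * ((m : ℝ) + 1) *
        (3 * q ^ (N / p + 1 - (n / 2 + 1)))))) * q ^ (n / p) =
        9 * (q ^ (N + 1 - (n / 2 + 1)) * q ^ (n / p)) +
        3 * (((TA5.K0 F N).ncard : ℝ) * q ^ (n / p)) +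
        6000 * ((m : ℝ) + 1) * (((TA5.Gm F N).ncard : ℝ) * q ^ (N / p + 1 - (n / 2 + 1)) *
          q ^ (n / p)) := by ring
      rw [h10]
      linarith)
  refine hfin.trans (le_of_eq ?_)
  rw [← pow_add, ← pow_add, ← pow_add, ← pow_add, ← pow_add]
  congr 2
  omega

end Pool.AVS
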